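import Mathlib

set_option autoImplicit false

/-! # A quantitative form of the convergence theorem of Lévy, for the normal law -/

namespace Pool.Agent.J4.H33.GL

open MeasureTheory ProbabilityTheory Filter Topology

noncomputable section

/-- the distribution function of the standard normal law -/
def Phi (t : ℝ) : ℝ := (gaussianReal 0 1).real (Set.Iic t)

lemma Phi_mono {s t : ℝ} (h : s ≤ t) : Phi s ≤ Phi t :=
  measureReal_mono (Set.Iic_subset_Iic.2 h)

lemma pdf_le (x : ℝ) : gaussianPDF 0 1 x ≤ 1 := by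
  unfold gaussianPDF
  rw [← ENNReal.ofReal_one]
  apply ENNReal.ofReal_le_ofReal
  unfold gaussianPDFReal
  have h1 : (√(2 * Real.pi * ((1 : NNReal) : ℝ)))⁻¹ ≤ 1 := by
    apply inv_le_one_of_one_le₀
    rw [Real.one_le_sqrt]
    have := Real.pi_gt_three
    push_cast
    linarith
  have h2 : Real.exp (-(x - 0) ^ 2 / (2 * ((1 : NNReal) : ℝ))) ≤ 1 := by
    rw [Real.exp_le_one_iff]
    push_cast
    have := sq_nonneg (x - 0)
    rw [neg_div]
    have : 0 ≤ (x - 0) ^ 2 / (2 * 1) := by positivity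
    linarith
  have h3 : 0 ≤ Real.exp (-(x - 0) ^ 2 / (2 * ((1 : NNReal) : ℝ))) := (Real.exp_pos _).le
  have h4 : 0 ≤ (√(2 * Real.pi * ((1 : NNReal) : ℝ)))⁻¹ := by positivity
  calc _ ≤ 1 * 1 := mul_le_mul h1 h2 h3 (by norm_num)
    _ = 1 := by norm_num

lemma Ioc_le {s t : ℝ} (h : s ≤ t) : (gaussianReal 0 1).real (Set.Ioc s t) ≤ t - s := by
  have h1 : gaussianReal 0 1 (Set.Ioc s t) ≤ ENNReal.ofReal (t - s) := by
    rw [gaussianReal_apply 0 (by norm_num)]
    calc _ ≤ ∫⁻ _ in Set.Ioc s t, 1 := lintegral_mono fun x => pdf_le x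
      _ = _ := by simp
  have h2 := ENNReal.toReal_mono ENNReal.ofReal_ne_top h1
  rw [ENNReal.toReal_ofReal (by linarith)] at h2
  exact h2

lemma Phi_lip {s t : ℝ} (h : s ≤ t) : Phi t - Phi s ≤ t - s := by
  have h1 : Phi t = Phi s + (gaussianReal 0 1).real (Set.Ioc s t) := by
    unfold Phi
    rw [← Set.Iic_union_Ioc_eq_Iic h, measureReal_union]
    · rw [Set.disjoint_left]
      intro x hx hx'
      exact absurd hx'.1 (not_lt.2 hx)
    · exact measurableSet_Ioc
  have := Ioc_le h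
  linarith

lemma Phi_nonneg (t : ℝ) : 0 ≤ Phi t := measureReal_nonneg

lemma Phi_le_one (t : ℝ) : Phi t ≤ 1 := by
  unfold Phi
  exact (measureReal_mono (Set.subset_univ _)).trans (by simp)

/-- tails -/
lemma tails (ε : ℝ) (hε : 0 < ε) : ∃ R : ℝ, 0 < R ∧ Phi (-R) ≤ ε ∧ 1 - ε ≤ Phi R := by
  have h1 : Tendsto (fun t => Phi t) atBot (𝓝 0) := by
    have := tendsto_cdf_atBot (gaussianReal 0 1)
    refine this.congr fun t => ?_
    rw [cdf_eq_real]; rfl
  have h2 : Tendsto (fun t => Phi t) atTop (𝓝 1) := by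
    have := tendsto_cdf_atTop (gaussianReal 0 1)
    refine this.congr fun t => ?_
    rw [cdf_eq_real]; rfl
  have h3 : ∀ᶠ t in atBot, Phi t < ε := h1.eventually_lt_const hε
  have h4 : ∀ᶠ t in atTop, 1 - ε < Phi t := h2.eventually_const_lt (by linarith)
  obtain ⟨a, ha⟩ := eventually_atBot.1 h3
  obtain ⟨b, hb⟩ := eventually_atTop.1 h4
  refine ⟨max 1 (max (-a) b), by positivity, ?_, ?_⟩
  · apply (ha _ _).le
    have : -a ≤ max 1 (max (-a) b) := (le_max_left _ _).trans (le_max_right _ _)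
    linarith
  · exact (hb _ ((le_max_right _ _).trans (le_max_right _ _))).le

/-- **Pólya's theorem** with a finite grid: if two distribution functions are close on a fine grid they are close everywhere -/
lemma grid (ε : ℝ) (hε : 0 < ε) : ∃ G : Finset ℝ, ∀ F : ℝ → ℝ, Monotone F → (∀ t, 0 ≤ F t ∧ F t ≤ 1) →
    (∀ t ∈ G, |F t - Phi t| ≤ ε) → ∀ t, |F t - Phi t| ≤ 2 * ε := by
  obtain ⟨R, hR, hR1, hR2⟩ := tails ε hε
  obtain ⟨n, hn⟩ := exists_nat_ge (2 * R / ε)
  refine ⟨(Finset.range (n + 1)).image (fun i : ℕ => -R + i * ε) ∪ {R}, ?_⟩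
  intro F hF hF01 hG t
  have hgi : ∀ i : ℕ, i ≤ n → |F (-R + i * ε) - Phi (-R + i * ε)| ≤ ε := by
    intro i hi
    apply hG
    apply Finset.mem_union_left
    exact Finset.mem_image_of_mem _ (Finset.mem_range.2 (by omega))
  have hgR : |F R - Phi R| ≤ ε := hG _ (Finset.mem_union_right _ (Finset.mem_singleton_self _))
  have hg0 := hgi 0 (Nat.zero_le _)
  rw [Nat.cast_zero, zero_mul, add_zero] at hg0
  rcases lt_or_ge t (-R) with h1 | h1
  · have h2 := hF h1.le
    have h3 := Phi_mono h1.le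
    have h4 := hF01 t
    have h5 := Phi_nonneg t
    rw [abs_le] at hg0 ⊢
    constructor <;> linarith [hg0.1, hg0.2]
  · rcases le_or_gt R t with h6 | h6
    · have h2 := hF h6
      have h3 := Phi_mono h6
      have h4 := hF01 t
      have h5 := Phi_le_one t
      rw [abs_le] at hgR ⊢
      constructor <;> linarith [hgR.1, hgR.2]
    · set i : ℕ := ⌊(t + R) / ε⌋₊ with hi
      have h7 : 0 ≤ (t + R) / ε := by apply div_nonneg <;> linarith
      have h8 : (i : ℝ) ≤ (t + R) / ε := Nat.floor_le h7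
      have h9 : (t + R) / ε < i + 1 := Nat.lt_floor_add_one _
      rw [le_div_iff₀ hε] at h8
      rw [div_lt_iff₀ hε] at h9
      have h10 : (i : ℝ) < n := by
        have : (i : ℝ) < 2 * R / ε := by
          rw [lt_div_iff₀ hε]; linarith
        linarith
      have h11 : i < n := by exact_mod_cast h10
      have a1 := hgi i h11.le
      have a2 := hgi (i + 1) h11
      push_cast at a2
      have b1 : -R + i * ε ≤ t := by linarith
      have b2 : t ≤ -R + (i + 1) * ε := by linarith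
      have c1 := hF b1
      have c2 := hF b2
      have d1 := Phi_mono b1
      have d2 := Phi_mono b2
      have e : Phi (-R + (i + 1) * ε) - Phi (-R + i * ε) ≤ ε := by
        have := Phi_lip (s := -R + i * ε) (t := -R + (i + 1) * ε) (by linarith)
        linarith
      rw [abs_le] at a1 a2 ⊢
      constructor <;> linarith [a1.1, a1.2, a2.1, a2.2]

/-- **The theorem of Lévy with bounds.** -/
theorem levy (ε : ℝ) (hε : 0 < ε) : ∃ T κ : ℝ, 0 < T ∧ 0 < κ ∧ ∀ μ : Measure ℝ, IsProbabilityMeasure μ →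
    (∀ θ : ℝ, |θ| ≤ T → ‖charFun μ θ - Complex.exp (-(θ : ℂ) ^ 2 / 2)‖ ≤ κ) →
    ∀ t : ℝ, |μ.real (Set.Iic t) - Phi t| ≤ ε := by
  by_contra hcon
  push Not at hcon
  have h1 : ∀ n : ℕ, ∃ μ : Measure ℝ, IsProbabilityMeasure μ ∧
      (∀ θ : ℝ, |θ| ≤ (n : ℝ) + 1 → ‖charFun μ θ - Complex.exp (-(θ : ℂ) ^ 2 / 2)‖ ≤ 1 / ((n : ℝ) + 1)) ∧
      ∃ t : ℝ, ε < |μ.real (Set.Iic t) - Phi t| := by
    intro n
    obtain ⟨μ, h2, h3, h4⟩ := hcon ((n : ℝ) + 1) (1 / ((n : ℝ) + 1)) (by positivity) (by positivity)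
    exact ⟨μ, h2, h3, h4⟩
  choose μ hμ hc ht using h1
  let ν : ℕ → ProbabilityMeasure ℝ := fun n => ⟨μ n, hμ n⟩
  let ν₀ : ProbabilityMeasure ℝ := ⟨gaussianReal 0 1, inferInstance⟩
  have h2 : Tendsto ν atTop (𝓝 ν₀) := by
    apply ProbabilityMeasure.tendsto_of_tendsto_charFun
    intro θ
    have h3 : charFun (ν₀ : Measure ℝ) θ = Complex.exp (-(θ : ℂ) ^ 2 / 2) := by
      show charFun (gaussianReal 0 1) θ = _
      rw [charFun_gaussianReal]
      congr 1
      push_cast
      ring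
    rw [h3, tendsto_iff_norm_sub_tendsto_zero]
    refine squeeze_zero' (g := fun n : ℕ => 1 / ((n : ℝ) + 1)) (Eventually.of_forall fun n => norm_nonneg _) ?_
      tendsto_one_div_add_atTop_nhds_zero_nat
    obtain ⟨n₀, hn₀⟩ := exists_nat_ge |θ|
    filter_upwards [eventually_ge_atTop n₀] with n hn
    apply hc n θ
    have : (n₀ : ℝ) ≤ n := by exact_mod_cast hn
    linarith
  have h3 : ∀ t : ℝ, Tendsto (fun n => (μ n).real (Set.Iic t)) atTop (𝓝 (Phi t)) := by
    intro t
    have h4 := ProbabilityMeasure.tendsto_measure_of_null_frontier_of_tendsto' h2 (E := Set.Iic t) (by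
      rw [frontier_Iic]
      show gaussianReal 0 1 {t} = 0
      have := nullSingletonClass_gaussianReal (μ := 0) (v := 1) (by norm_num)
      exact measure_singleton t)
    have h5 : (ν₀ : Measure ℝ) (Set.Iic t) ≠ ⊤ := measure_ne_top _ _
    exact (ENNReal.tendsto_toReal h5).comp h4
  obtain ⟨G, hG⟩ := grid (ε / 2) (by positivity)
  have h4 : ∀ᶠ n in atTop, ∀ t ∈ G, |(μ n).real (Set.Iic t) - Phi t| ≤ ε / 2 := by
    rw [Filter.eventually_all_finset]
    intro t _
    have h5 := (tendsto_iff_norm_sub_tendsto_zero.1 (h3 t)).eventually_lt_const (show (0 : ℝ) < ε / 2 by positivity)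
    filter_upwards [h5] with n hn
    exact hn.le
  obtain ⟨n, hn⟩ := h4.exists
  obtain ⟨t, hlt⟩ := ht n
  have := hμ n
  have h6 := hG (fun t => (μ n).real (Set.Iic t)) (fun s t h => measureReal_mono (Set.Iic_subset_Iic.2 h))
    (fun t => ⟨measureReal_nonneg, (measureReal_mono (Set.subset_univ _)).trans (by simp)⟩) hn t
  have h7 : |(μ n).real (Set.Iic t) - Phi t| ≤ 2 * (ε / 2) := h6
  linarith

end

end Pool.Agent.J4.H33.GL
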