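import Mathlib
import Pool.Agent.J4.H33.LIL.Arith

set_option autoImplicit false

/-! # Means of products of functions of the residues modulo the primes -/

namespace Pool.Agent.J4.H33.GL

open Finset Pool.Agent.J4.H33.LIL

noncomputable section

/-- the mean over a finite set -/
def mean {𝕜 : Type*} [RCLike 𝕜] (Ω : Finset ℤ) (F : ℤ → 𝕜) : 𝕜 := (∑ D ∈ Ω, F D) / (Ω.card : 𝕜)

section generic

variable {𝕜 : Type*} [RCLike 𝕜]

lemma mean_add (Ω : Finset ℤ) (F G : ℤ → 𝕜) : mean Ω (fun D => F D + G D) = mean Ω F + mean Ω G := by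
  unfold mean; rw [sum_add_distrib, add_div]

lemma mean_sub (Ω : Finset ℤ) (F G : ℤ → 𝕜) : mean Ω (fun D => F D - G D) = mean Ω F - mean Ω G := by
  unfold mean; rw [sum_sub_distrib, sub_div]

lemma mean_const_mul (Ω : Finset ℤ) (c : 𝕜) (F : ℤ → 𝕜) : mean Ω (fun D => c * F D) = c * mean Ω F := by
  unfold mean; rw [← mul_sum, mul_div_assoc]

lemma mean_sum {ι : Type*} (Ω : Finset ℤ) (s : Finset ι) (F : ι → ℤ → 𝕜) :
    mean Ω (fun D => ∑ i ∈ s, F i D) = ∑ i ∈ s, mean Ω (F i) := by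
  unfold mean; rw [sum_comm, sum_div]

lemma mean_one {Ω : Finset ℤ} (h : Ω.Nonempty) : mean Ω (fun _ => (1 : 𝕜)) = 1 := by
  unfold mean
  have : (Ω.card : 𝕜) ≠ 0 := by exact_mod_cast (card_pos.2 h).ne'
  simp [this]

lemma norm_mean_le (Ω : Finset ℤ) (F : ℤ → 𝕜) (G : ℤ → ℝ) (h : ∀ D ∈ Ω, ‖F D‖ ≤ G D) : ‖mean Ω F‖ ≤ mean Ω G := by
  unfold mean
  rw [norm_div, RCLike.norm_natCast]
  apply div_le_div_of_nonneg_right _ (by positivity)
  exact (norm_sum_le _ _).trans (sum_le_sum h)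

lemma mean_congr {Ω : Finset ℤ} {F G : ℤ → 𝕜} (h : ∀ D ∈ Ω, F D = G D) : mean Ω F = mean Ω G := by
  unfold mean; rw [sum_congr rfl h]

lemma sum_crt_g {m n : ℕ} (h : m.Coprime n) (hm : 0 < m) (hn : 0 < n) (Φ : ℤ → ℤ → 𝕜) :
    ∑ D ∈ res (m * n), Φ (D % (m : ℤ)) (D % (n : ℤ)) = ∑ a ∈ res m, ∑ b ∈ res n, Φ a b := by
  rw [← sum_product']
  refine sum_nbij (fun D => (D % (m : ℤ), D % (n : ℤ))) ?_ ?_ ?_ ?_
  · intro D _
    exact mem_product.2 ⟨emod_mem_res hm _, emod_mem_res hn _⟩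
  · intro D hD E hE hDE
    have h1 : D % (m : ℤ) = E % (m : ℤ) := congrArg Prod.fst hDE
    have h2 : D % (n : ℤ) = E % (n : ℤ) := congrArg Prod.snd hDE
    have h3 : (m : ℤ) ∣ D - E := Int.dvd_of_emod_eq_zero (Int.emod_eq_emod_iff_emod_sub_eq_zero.1 h1)
    have h4 : (n : ℤ) ∣ D - E := Int.dvd_of_emod_eq_zero (Int.emod_eq_emod_iff_emod_sub_eq_zero.1 h2)
    have h5 : ((m * n : ℕ) : ℤ) ∣ D - E := by
      push_cast
      exact IsCoprime.mul_dvd (Nat.isCoprime_iff_coprime.2 h) h3 h4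
    have hD' := mem_res.1 (mem_coe.1 hD)
    have hE' := mem_res.1 (mem_coe.1 hE)
    have h6 : D - E = 0 := by
      apply Int.eq_zero_of_abs_lt_dvd h5
      rw [abs_lt]; constructor <;> linarith
    linarith
  · rintro ⟨a, b⟩ hab
    have hab' := mem_product.1 (mem_coe.1 hab)
    have ha := mem_res.1 hab'.1
    have hb := mem_res.1 hab'.2
    obtain ⟨c, hc1, hc2⟩ := Nat.chineseRemainder h a.toNat b.toNat
    refine ⟨((c % (m * n) : ℕ) : ℤ), mem_coe.2 (mem_res.2 ⟨Int.natCast_nonneg _, ?_⟩), ?_⟩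
    · exact_mod_cast Nat.mod_lt _ (Nat.mul_pos hm hn)
    · refine Prod.ext ?_ ?_
      · show ((c % (m * n) : ℕ) : ℤ) % (m : ℤ) = a
        have h1 : ((c % (m * n) : ℕ) : ℤ) % (m : ℤ) = ((c % (m * n) % m : ℕ) : ℤ) := by push_cast; rfl
        rw [h1, Nat.mod_mul_right_mod]
        have h2 : c % m = a.toNat % m := hc1
        rw [h2, Nat.mod_eq_of_lt (by omega)]
        exact Int.toNat_of_nonneg ha.1
      · show ((c % (m * n) : ℕ) : ℤ) % (n : ℤ) = b
        have h1 : ((c % (m * n) : ℕ) : ℤ) % (n : ℤ) = ((c % (m * n) % n : ℕ) : ℤ) := by push_cast; rfl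
        rw [h1, Nat.mod_mul_left_mod]
        have h2 : c % n = b.toNat % n := hc2
        rw [h2, Nat.mod_eq_of_lt (by omega)]
        exact Int.toNat_of_nonneg hb.1
  · intro D _; rfl

lemma prod_pos (T : Finset ℕ) : 0 < ∏ k ∈ T, pr k := Finset.prod_pos fun k _ => (pr_prime k).pos

/-- The mean of a product of functions of the residues modulo different primes. -/
lemma mean_prod (T : Finset ℕ) (g : ℕ → ℤ → 𝕜) (hg : ∀ k D, g k (D % (pr k : ℤ)) = g k D) :
    mean (res (∏ k ∈ T, pr k)) (fun D => ∏ k ∈ T, g k D) = ∏ k ∈ T, mean (res (pr k)) (g k) := by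
  classical
  induction T using Finset.induction_on with
  | empty =>
    simp only [prod_empty]
    apply mean_one
    exact ⟨0, mem_res.2 (by norm_num)⟩
  | insert a T ha ih =>
    rw [prod_insert ha, prod_insert ha, ← ih]
    have hco : (pr a).Coprime (∏ k ∈ T, pr k) := by
      refine Nat.Coprime.prod_right fun k hk => ?_
      rw [Nat.coprime_primes (pr_prime a) (pr_prime k)]
      intro h
      exact ha ((pr_inj h) ▸ hk)
    have h1 : ∀ D : ℤ, ∏ k ∈ insert a T, g k D =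
        (fun x y => g a x * ∏ k ∈ T, g k y) (D % (pr a : ℤ)) (D % ((∏ k ∈ T, pr k : ℕ) : ℤ)) := by
      intro D
      rw [prod_insert ha]
      show _ = g a (D % (pr a : ℤ)) * ∏ k ∈ T, g k (D % ((∏ k ∈ T, pr k : ℕ) : ℤ))
      rw [hg a]
      congr 1
      refine prod_congr rfl fun k hk => ?_
      rw [← hg k D, ← hg k (D % ((∏ k ∈ T, pr k : ℕ) : ℤ))]
      congr 1
      exact (Int.emod_emod_of_dvd D (by exact_mod_cast dvd_prod_of_mem _ hk)).symm
    unfold mean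
    simp only [h1]
    rw [sum_crt_g hco (pr_prime a).pos (prod_pos T) (fun x y => g a x * ∏ k ∈ T, g k y)]
    simp only [card_res]
    rw [← Finset.sum_mul_sum]
    push_cast
    rw [mul_div_mul_comm]

/-- the model -/
def mod (K : ℕ) : Finset ℤ := res (∏ k ∈ range K, pr k)

lemma mod_nonempty (K : ℕ) : (mod K).Nonempty := ⟨0, mem_res.2 ⟨le_rfl, by exact_mod_cast prod_pos _⟩⟩

lemma mean_mod {K : ℕ} {T : Finset ℕ} (hT : T ⊆ range K) (g : ℕ → ℤ → 𝕜) (hg : ∀ k D, g k (D % (pr k : ℤ)) = g k D) :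
    mean (mod K) (fun D => ∏ k ∈ T, g k D) = ∏ k ∈ T, mean (res (pr k)) (g k) := by
  classical
  have h1 := mean_prod (range K) (fun k D => if k ∈ T then g k D else 1) (fun k D => by
    by_cases hk : k ∈ T
    · simp only [hk, if_true]; exact hg k D
    · simp only [hk, if_false])
  have h2 : ∀ D : ℤ, ∏ k ∈ range K, (if k ∈ T then g k D else 1) = ∏ k ∈ T, g k D := by
    intro D
    rw [prod_ite_mem, inter_eq_right.2 hT]
  simp only [h2] at h1
  unfold mod
  rw [h1]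
  have h3 : ∀ k ∈ range K, mean (res (pr k)) (fun D => if k ∈ T then g k D else 1) =
      if k ∈ T then mean (res (pr k)) (g k) else 1 := by
    intro k _
    by_cases hk : k ∈ T
    · simp only [hk, if_true]
    · simp only [hk, if_false]
      apply mean_one
      exact ⟨0, mem_res.2 ⟨le_rfl, by exact_mod_cast (pr_prime k).pos⟩⟩
  rw [prod_congr rfl h3, prod_ite_mem, inter_eq_right.2 hT]

/-! ### Intervals -/

lemma class_card (P : ℕ) (hP : 0 < P) (M : ℤ) (H : ℕ) (v : ℤ) :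
    |(((Ico M (M + H)).filter (fun D => D % (P : ℤ) = v % (P : ℤ))).card : ℝ) - H / P| ≤ 1 := by
  have h := Int.Ico_filter_modEq_card M (M + H) (r := (P : ℤ)) (by exact_mod_cast hP) v
  have h0 : ((Ico M (M + H)).filter (fun D => D % (P : ℤ) = v % (P : ℤ))) =
      ((Ico M (M + H)).filter (fun D => D ≡ v [ZMOD P])) := rfl
  rw [h0]
  have h2 : ((((Ico M (M + H)).filter (fun D => D ≡ v [ZMOD P])).card : ℕ) : ℝ) =
      ((max (⌈((M + H : ℤ) - v) / ((P : ℤ) : ℚ)⌉ - ⌈(M - v) / ((P : ℤ) : ℚ)⌉) 0 : ℤ) : ℝ) := by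
    rw [← h]; norm_cast
  rw [h2]
  have hPq : (0 : ℚ) < P := by exact_mod_cast hP
  set u : ℤ := ⌈((M + H : ℤ) - v) / ((P : ℤ) : ℚ)⌉ - ⌈(M - v) / ((P : ℤ) : ℚ)⌉ with hu
  have h3 : |((max u 0 : ℤ) : ℚ) - H / P| ≤ 1 := by
    have h4 := Int.ceil_lt_add_one ((((M : ℚ) + H) - v) / (P : ℚ))
    have h5 := Int.le_ceil (((M : ℚ) - v) / (P : ℚ))
    have h4' := Int.le_ceil ((((M : ℚ) + H) - v) / (P : ℚ))
    have h5' := Int.ceil_lt_add_one (((M : ℚ) - v) / (P : ℚ))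
    have h6 : (((M : ℚ) + H) - v) / (P : ℚ) = ((M : ℚ) - v) / P + H / P := by ring
    have h7 : (u : ℚ) = (⌈(((M : ℚ) + H) - v) / (P : ℚ)⌉ : ℚ) - (⌈((M : ℚ) - v) / (P : ℚ)⌉ : ℚ) := by
      rw [hu]; push_cast; rfl
    have h8 : (0 : ℚ) ≤ H / P := by positivity
    rw [abs_le]
    rcases le_total u 0 with h9 | h9
    · rw [max_eq_right h9]
      have : (u : ℚ) ≤ 0 := by exact_mod_cast h9
      push_cast
      constructor <;> linarith
    · rw [max_eq_left h9]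
      constructor <;> linarith
  have h4 : ((|((max u 0 : ℤ) : ℚ) - H / P| : ℚ) : ℝ) ≤ ((1 : ℚ) : ℝ) := by exact_mod_cast h3
  push_cast at h4 ⊢
  exact h4

/-- Means over intervals and over a period. -/
lemma mean_period (P : ℕ) (hP : 0 < P) (F : ℤ → 𝕜) (hF : ∀ D, F (D % (P : ℤ)) = F D) (hF1 : ∀ D, ‖F D‖ ≤ 1)
    (M : ℤ) (H : ℕ) (hH : 0 < H) :
    ‖mean (Ico M (M + H)) F - mean (res P) F‖ ≤ P / H := by
  classical
  have hcard : (Ico M (M + (H : ℤ))).card = H := by simp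
  have hH0 : (0 : ℝ) < H := by exact_mod_cast hH
  have hP0 : (0 : ℝ) < P := by exact_mod_cast hP
  have hH' : (H : 𝕜) ≠ 0 := by exact_mod_cast hH.ne'
  have hP' : (P : 𝕜) ≠ 0 := by exact_mod_cast hP.ne'
  have h1 : ∑ D ∈ Ico M (M + (H : ℤ)), F D =
      ∑ v ∈ res P, (((Ico M (M + H)).filter (fun D => D % (P : ℤ) = v % (P : ℤ))).card : 𝕜) * F v := by
    rw [← sum_fiberwise_of_maps_to (t := res P) (g := fun D => D % (P : ℤ)) (fun D _ => emod_mem_res hP D)]
    refine sum_congr rfl fun v hv => ?_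
    have hv' := mem_res.1 hv
    have h2 : v % (P : ℤ) = v := Int.emod_eq_of_lt hv'.1 hv'.2
    rw [h2]
    rw [sum_congr rfl (g := fun _ => F v) (fun D hD => by
      have h3 := (mem_filter.1 hD).2
      rw [← hF D, h3])]
    rw [sum_const, nsmul_eq_mul]
  have h2 : mean (Ico M (M + H)) F - mean (res P) F =
      ∑ v ∈ res P, ((((((Ico M (M + H)).filter (fun D => D % (P : ℤ) = v % (P : ℤ))).card : ℝ) - H / P) / H : ℝ) : 𝕜) * F v := by
    unfold mean
    rw [hcard, card_res, h1, sum_div, sum_div, ← sum_sub_distrib]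
    refine sum_congr rfl fun v _ => ?_
    push_cast
    field_simp
  rw [h2]
  refine (norm_sum_le _ _).trans ?_
  have h3 : ∀ v ∈ res P, ‖((((((Ico M (M + H)).filter (fun D => D % (P : ℤ) = v % (P : ℤ))).card : ℝ) - H / P) / H : ℝ) : 𝕜) *
      F v‖ ≤ 1 / H := by
    intro v _
    rw [norm_mul, RCLike.norm_ofReal, abs_div, abs_of_pos hH0]
    have h4 := class_card P hP M H v
    have h5 : |(((Ico M (M + H)).filter (fun D => D % (P : ℤ) = v % (P : ℤ))).card : ℝ) - H / P| / H ≤ 1 / H :=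
      div_le_div_of_nonneg_right h4 hH0.le
    have h6 : (0 : ℝ) ≤ 1 / H := by positivity
    calc _ ≤ 1 / (H : ℝ) * 1 := mul_le_mul h5 (hF1 v) (norm_nonneg _) h6
      _ = 1 / H := mul_one _
  refine (sum_le_sum h3).trans ?_
  rw [sum_const, card_res, nsmul_eq_mul]
  apply le_of_eq
  ring

/-- Means of products over intervals and in the model. -/
lemma mean_compare {K : ℕ} {T : Finset ℕ} (hT : T ⊆ range K) (g : ℕ → ℤ → 𝕜) (hg : ∀ k D, g k (D % (pr k : ℤ)) = g k D)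
    (hg1 : ∀ k D, ‖g k D‖ ≤ 1) (M : ℤ) (H : ℕ) (hH : 0 < H) :
    ‖mean (Ico M (M + H)) (fun D => ∏ k ∈ T, g k D) - mean (mod K) (fun D => ∏ k ∈ T, g k D)‖ ≤
      ((∏ k ∈ T, pr k : ℕ) : ℝ) / H := by
  rw [mean_mod hT g hg, ← mean_prod T g hg]
  apply mean_period _ (prod_pos T) _ _ _ M H hH
  · intro D
    refine prod_congr rfl fun k hk => ?_
    rw [← hg k D, ← hg k (D % ((∏ k ∈ T, pr k : ℕ) : ℤ))]
    congr 1
    exact (Int.emod_emod_of_dvd D (by exact_mod_cast dvd_prod_of_mem _ hk))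
  · intro D
    rw [norm_prod]
    exact prod_le_one (fun k _ => norm_nonneg _) fun k _ => hg1 k D

end generic

end

end Pool.Agent.J4.H33.GL
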