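import Mathlib
import Pool.Agent.J4.H33.GL.Mean

set_option autoImplicit false

/-! # Moments and exponential moments of sums of quadratic characters -/

namespace Pool.Agent.J4.H33.GL

open Finset Pool.Agent.J4.H33.LIL

noncomputable section

/-- the quadratic character modulo the `k`-th prime (zero for the prime 2) -/
def chi (k : ℕ) (D : ℤ) : ℝ := if k = 0 then 0 else (jacobiSym D (pr k) : ℝ)

lemma chi_mod (k : ℕ) (D : ℤ) : chi k (D % (pr k : ℤ)) = chi k D := by
  unfold chi
  rw [← jacobiSym.mod_left]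

lemma chi_or (k : ℕ) (D : ℤ) : chi k D = 0 ∨ chi k D = 1 ∨ chi k D = -1 := by
  unfold chi
  split_ifs
  · left; rfl
  · rcases jacobiSym.trichotomy D (pr k) with h | h | h <;> rw [h] <;> simp

lemma abs_chi_le (k : ℕ) (D : ℤ) : |chi k D| ≤ 1 := by
  rcases chi_or k D with h | h | h <;> rw [h] <;> simp

/-- the sums -/
def SS (c : ℕ → ℝ) (K : ℕ) (D : ℤ) : ℝ := ∑ k ∈ range K, c k * chi k D

lemma SS_pow (c : ℕ → ℝ) (K : ℕ) (D : ℤ) (j : ℕ) :
    SS c K D ^ j = ∑ f ∈ Fintype.piFinset (fun _ : Fin j => range K), (∏ i, c (f i)) * ∏ i, chi (f i) D := by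
  unfold SS
  have h := Finset.prod_univ_sum (fun _ : Fin j => range K) (fun _ k => c k * chi k D)
  rw [Finset.prod_const, Finset.card_univ, Fintype.card_fin] at h
  rw [h]
  refine sum_congr rfl fun f _ => ?_
  rw [prod_mul_distrib]

/-- comparison of a monomial -/
lemma mono_compare {K X : ℕ} (hX : ∀ k < K, pr k ≤ X) (hX1 : 1 ≤ X) (j : ℕ) (f : Fin j → ℕ) (hf : ∀ i, f i ∈ range K)
    (M : ℤ) (H : ℕ) (hH : 0 < H) :
    |mean (Ico M (M + H)) (fun D => ∏ i, chi (f i) D) - mean (mod K) (fun D => ∏ i, chi (f i) D)| ≤ (X : ℝ) ^ j / H := by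
  classical
  have h1 : ∀ D : ℤ, ∏ i, chi (f i) D = ∏ k ∈ univ.image f, chi k D ^ (univ.filter (fun i => f i = k)).card := by
    intro D
    exact Finset.prod_comp (fun k => chi k D) f
  simp only [h1]
  have hT : univ.image f ⊆ range K := by
    intro k hk
    obtain ⟨i, _, rfl⟩ := mem_image.1 hk
    exact hf i
  have h2 := mean_compare (𝕜 := ℝ) hT (fun k D => chi k D ^ (univ.filter (fun i => f i = k)).card)
    (fun k D => by simp only [chi_mod]) (fun k D => by
      rw [norm_pow, Real.norm_eq_abs]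
      exact pow_le_one₀ (abs_nonneg _) (abs_chi_le k D)) M H hH
  rw [Real.norm_eq_abs] at h2
  refine h2.trans (div_le_div_of_nonneg_right ?_ (by positivity))
  have h3 : ∏ k ∈ univ.image f, pr k ≤ X ^ j := by
    calc ∏ k ∈ univ.image f, pr k ≤ ∏ k ∈ univ.image f, X := prod_le_prod (fun _ _ => Nat.zero_le _) fun k hk =>
          hX k (mem_range.1 (hT hk))
      _ = X ^ (univ.image f).card := by rw [prod_const]
      _ ≤ X ^ j := Nat.pow_le_pow_right hX1 (card_image_le.trans (by simp))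
  exact_mod_cast h3

/-- comparison of the moments -/
lemma mom_compare {K X : ℕ} (hX : ∀ k < K, pr k ≤ X) (hX1 : 1 ≤ X) (c : ℕ → ℝ) (j : ℕ) (M : ℤ) (H : ℕ) (hH : 0 < H) :
    |mean (Ico M (M + H)) (fun D => SS c K D ^ j) - mean (mod K) (fun D => SS c K D ^ j)| ≤
      ((∑ k ∈ range K, |c k|) * X) ^ j / H := by
  have h1 : ∀ Ω : Finset ℤ, mean Ω (fun D => SS c K D ^ j) =
      ∑ f ∈ Fintype.piFinset (fun _ : Fin j => range K), (∏ i, c (f i)) * mean Ω (fun D => ∏ i, chi (f i) D) := by
    intro Ω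
    have h2 : mean Ω (fun D => SS c K D ^ j) = mean Ω (fun D => ∑ f ∈ Fintype.piFinset (fun _ : Fin j => range K),
        (∏ i, c (f i)) * ∏ i, chi (f i) D) := mean_congr fun D _ => SS_pow c K D j
    rw [h2, mean_sum]
    exact sum_congr rfl fun f _ => mean_const_mul _ _ _
  rw [h1, h1, ← sum_sub_distrib]
  refine (abs_sum_le_sum_abs _ _).trans ?_
  have h2 : ∀ f ∈ Fintype.piFinset (fun _ : Fin j => range K),
      |(∏ i, c (f i)) * mean (Ico M (M + (H : ℤ))) (fun D => ∏ i, chi (f i) D) -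
        (∏ i, c (f i)) * mean (mod K) (fun D => ∏ i, chi (f i) D)| ≤ (∏ i, |c (f i)|) * ((X : ℝ) ^ j / H) := by
    intro f hf
    rw [← mul_sub, abs_mul, abs_prod]
    exact mul_le_mul_of_nonneg_left (mono_compare hX hX1 j f (fun i => Fintype.mem_piFinset.1 hf i) M H hH)
      (prod_nonneg fun _ _ => abs_nonneg _)
  refine (sum_le_sum h2).trans ?_
  rw [← sum_mul]
  have h3 := Finset.prod_univ_sum (fun _ : Fin j => range K) (fun _ k => |c k|)
  rw [Finset.prod_const, Finset.card_univ, Fintype.card_fin] at h3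
  rw [← h3, mul_pow]
  apply le_of_eq; ring

/-- the mean of a function of one character -/
lemma mean_chi {𝕜 : Type*} [RCLike 𝕜] {k : ℕ} (hk : k ≠ 0) (h : ℝ → 𝕜) :
    mean (res (pr k)) (fun D => h (chi k D)) =
      (1 / (pr k : 𝕜)) * h 0 + (1 - 1 / (pr k : 𝕜)) * ((h 1 + h (-1)) / 2) := by
  have hp := pr_prime k
  obtain ⟨g, hg, hgd⟩ := exists_nonres hp (pr_ne_two hk)
  have hp0 : ((pr k : ℕ) : 𝕜) ≠ 0 := by exact_mod_cast hp.ne_zero
  have hinj : Set.InjOn (fun b : ℤ => (g * b) % (pr k : ℤ)) (res (pr k)) := by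
    intro b hb c hc hbc
    exact mul_inj hp hgd (mem_coe.1 hb) (mem_coe.1 hc) hbc
  have hmaps : Set.MapsTo (fun b : ℤ => (g * b) % (pr k : ℤ)) (res (pr k)) (res (pr k)) := fun b _ =>
    mem_coe.2 (emod_mem_res hp.pos _)
  have h1 : ∑ b ∈ res (pr k), h (- chi k b) = ∑ b ∈ res (pr k), h (chi k b) := by
    refine sum_nbij (fun b : ℤ => (g * b) % (pr k : ℤ)) (fun b _ => emod_mem_res hp.pos _) hinj
      (surjOn_of_injOn_of_card_le _ hmaps hinj le_rfl) ?_
    intro b _
    congr 1
    rw [chi_mod]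
    unfold chi
    rw [if_neg hk, if_neg hk, jacobiSym.mul_left, hg]
    push_cast
    ring
  have h2 : ∑ b ∈ res (pr k), (h (chi k b) + h (- chi k b)) = 2 * h 0 + ((pr k : 𝕜) - 1) * (h 1 + h (-1)) := by
    have h0 : (0 : ℤ) ∈ res (pr k) := mem_res.2 ⟨le_rfl, by exact_mod_cast hp.pos⟩
    rw [← add_sum_erase _ _ h0]
    have h3 : chi k 0 = 0 := by
      unfold chi
      rw [if_neg hk, jacobiSym.zero_left hp.one_lt]; simp
    have h4 : ∀ b ∈ (res (pr k)).erase 0, h (chi k b) + h (- chi k b) = h 1 + h (-1) := by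
      intro b hb
      have hb1 := (mem_erase.1 hb).1
      have hb2 := mem_res.1 (mem_erase.1 hb).2
      have h5 : chi k b ≠ 0 := by
        unfold chi
        rw [if_neg hk]
        intro h6
        have h7 : jacobiSym b (pr k) = 0 := by exact_mod_cast h6
        have : NeZero (pr k) := ⟨hp.ne_zero⟩
        rw [jacobiSym.eq_zero_iff_not_coprime] at h7
        apply h7
        have h8 : ¬ (pr k : ℤ) ∣ b := by
          intro h9
          have := Int.le_of_dvd (by omega) h9
          omega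
        have h9 := (Nat.prime_iff_prime_int.1 hp).coprime_iff_not_dvd.2 h8
        exact Int.isCoprime_iff_gcd_eq_one.1 h9.symm
      rcases chi_or k b with h6 | h6 | h6
      · exact absurd h6 h5
      · rw [h6]
      · rw [h6, neg_neg, add_comm]
    rw [sum_congr rfl h4, sum_const, card_erase_of_mem h0, card_res, nsmul_eq_mul, h3, neg_zero]
    rw [Nat.cast_sub hp.one_lt.le]
    push_cast
    ring
  rw [sum_add_distrib, h1] at h2
  unfold mean
  rw [card_res]
  have h5 : ∑ b ∈ res (pr k), h (chi k b) = h 0 + ((pr k : 𝕜) - 1) * ((h 1 + h (-1)) / 2) := by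
    have : (2 : 𝕜) * ∑ b ∈ res (pr k), h (chi k b) = 2 * (h 0 + ((pr k : 𝕜) - 1) * ((h 1 + h (-1)) / 2)) := by
      rw [two_mul, h2]; ring
    exact mul_left_cancel₀ two_ne_zero this
  rw [h5]
  field_simp

/-! ### Exponential moments of the model -/

lemma exp_mean (c : ℕ → ℝ) (hc : c 0 = 0) (K : ℕ) (l : ℝ) :
    mean (mod K) (fun D => Real.exp (l * SS c K D)) ≤ Real.exp (l ^ 2 * (∑ k ∈ range K, c k ^ 2) / 2) := by
  have h1 : mean (mod K) (fun D => Real.exp (l * SS c K D)) =
      mean (mod K) (fun D => ∏ k ∈ range K, (fun k D => Real.exp (l * (c k * chi k D))) k D) := by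
    refine mean_congr fun D _ => ?_
    unfold SS
    rw [mul_sum, Real.exp_sum]
  rw [h1, mean_mod (Subset.refl _) (fun k D => Real.exp (l * (c k * chi k D))) (fun k D => by simp only [chi_mod])]
  have h2 : Real.exp (l ^ 2 * (∑ k ∈ range K, c k ^ 2) / 2) = ∏ k ∈ range K, Real.exp ((l * c k) ^ 2 / 2) := by
    rw [← Real.exp_sum, mul_sum, sum_div]
    congr 1
    exact sum_congr rfl fun k _ => by ring
  rw [h2]
  refine prod_le_prod ?_ ?_
  · intro k _
    unfold mean
    apply div_nonneg _ (by positivity)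
    exact sum_nonneg fun _ _ => (Real.exp_pos _).le
  · intro k _
    by_cases hk : k = 0
    · subst hk
      rw [hc]
      simp only [zero_mul, mul_zero, Real.exp_zero]
      rw [mean_one ⟨0, mem_res.2 ⟨le_rfl, by exact_mod_cast (pr_prime 0).pos⟩⟩]
      norm_num
    · rw [mean_chi hk (fun x => Real.exp (l * (c k * x)))]
      have hp : (1 : ℝ) < (pr k : ℝ) := by exact_mod_cast (pr_prime k).one_lt
      have e1 : (Real.exp (l * (c k * 1)) + Real.exp (l * (c k * (-1)))) / 2 = Real.cosh (l * c k) := by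
        rw [Real.cosh_eq]; congr 2
        · ring_nf
        · ring_nf
      rw [e1, mul_zero, mul_zero, Real.exp_zero, mul_one]
      have h3 := Real.one_le_cosh (l * c k)
      have h4 := Real.cosh_le_exp_half_sq (l * c k)
      have h5 : 0 < 1 / (pr k : ℝ) := by positivity
      nlinarith

/-- even moments of the model -/
lemma pow_mean (c : ℕ → ℝ) (hc : c 0 = 0) (K : ℕ) (hV : ∑ k ∈ range K, c k ^ 2 ≤ 1) {r : ℕ} (hr : Even r) {l : ℝ} (hl : 0 < l) :
    mean (mod K) (fun D => SS c K D ^ r) ≤ 2 * r.factorial * Real.exp (l ^ 2 / 2) / l ^ r := by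
  have h1 : ∀ D : ℤ, SS c K D ^ r ≤ r.factorial / l ^ r * (Real.exp (l * SS c K D) + Real.exp ((-l) * SS c K D)) := by
    intro D
    set x := SS c K D
    have h2 : ∀ y : ℝ, 0 ≤ y → y ^ r / r.factorial ≤ Real.exp y := fun y hy => Real.pow_div_factorial_le_exp y hy r
    have h3 := h2 (l * |x|) (by positivity)
    have h4 : Real.exp (l * |x|) ≤ Real.exp (l * x) + Real.exp ((-l) * x) := by
      rcases abs_cases x with h | h
      · rw [h.1]; have := Real.exp_pos ((-l) * x); linarith
      · rw [h.1, show l * -x = (-l) * x by ring]; have := Real.exp_pos (l * x); linarith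
    have h5 : x ^ r = (l * |x|) ^ r / r.factorial * (r.factorial / l ^ r) := by
      rw [mul_pow, hr.pow_abs]
      have : (r.factorial : ℝ) ≠ 0 := by positivity
      field_simp
    rw [h5, mul_comm]
    apply mul_le_mul_of_nonneg_left (h3.trans h4) (by positivity)
  have h2 : mean (mod K) (fun D => SS c K D ^ r) ≤
      mean (mod K) (fun D => r.factorial / l ^ r * (Real.exp (l * SS c K D) + Real.exp ((-l) * SS c K D))) := by
    unfold mean
    apply div_le_div_of_nonneg_right (sum_le_sum fun D _ => h1 D) (by positivity)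
  rw [mean_const_mul, mean_add] at h2
  have h3 := exp_mean c hc K l
  have h4 := exp_mean c hc K (-l)
  have h5 : Real.exp (l ^ 2 * (∑ k ∈ range K, c k ^ 2) / 2) ≤ Real.exp (l ^ 2 / 2) := by
    apply Real.exp_le_exp.2
    have := sq_nonneg l
    nlinarith
  have h6 : Real.exp ((-l) ^ 2 * (∑ k ∈ range K, c k ^ 2) / 2) ≤ Real.exp (l ^ 2 / 2) := by
    rw [neg_sq]; exact h5
  have h7 : (0 : ℝ) ≤ r.factorial / l ^ r := by positivity
  refine h2.trans ((mul_le_mul_of_nonneg_left (add_le_add (h3.trans h5) (h4.trans h6)) h7).trans (le_of_eq ?_))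
  ring

end

end Pool.Agent.J4.H33.GL
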