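import Mathlib
import Pool.Agent.J4.H33.GL.Mom

set_option autoImplicit false

/-! # Characteristic functions of sums of quadratic characters -/

namespace Pool.Agent.J4.H33.GL

open Finset Pool.Agent.J4.H33.LIL

noncomputable section

/-- the Taylor remainder of `exp (i x)` -/
def RR (n : ℕ) (x : ℝ) : ℂ := Complex.exp (x * Complex.I) - ∑ j ∈ range n, ((x : ℂ) * Complex.I) ^ j / (j.factorial : ℂ)

lemma RR_deriv (n : ℕ) (x : ℝ) : HasDerivAt (RR (n + 1)) (Complex.I * RR n x) x := by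
  have h0 : HasDerivAt (fun y : ℝ => (y : ℂ) * Complex.I) (1 * Complex.I) x :=
    (Complex.ofRealCLM.hasDerivAt (x := x)).mul_const Complex.I
  have h1 : HasDerivAt (fun y : ℝ => Complex.exp ((y : ℂ) * Complex.I)) (Complex.exp (x * Complex.I) * (1 * Complex.I)) x :=
    h0.cexp
  have h2 : ∀ j ∈ range n, HasDerivAt (fun y : ℝ => ((y : ℂ) * Complex.I) ^ (j + 1) / ((j + 1).factorial : ℂ))
      (((x : ℂ) * Complex.I) ^ j / (j.factorial : ℂ) * Complex.I) x := by
    intro j _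
    have h3 := (h0.pow (j + 1)).div_const ((j + 1).factorial : ℂ)
    refine h3.congr_deriv ?_
    have h4 : (((j + 1).factorial : ℕ) : ℂ) = (j + 1) * (j.factorial : ℂ) := by
      rw [Nat.factorial_succ]; push_cast; ring
    have h5 : (j.factorial : ℂ) ≠ 0 := by exact_mod_cast Nat.factorial_ne_zero j
    have h6 : ((j : ℂ) + 1) ≠ 0 := by exact_mod_cast Nat.succ_ne_zero j
    rw [h4]
    simp only [Nat.add_sub_cancel]
    push_cast
    field_simp
  have h3 := h1.sub (HasDerivAt.fun_sum h2)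
  have h4 : RR (n + 1) = fun y : ℝ => (fun y : ℝ => Complex.exp ((y : ℂ) * Complex.I)) y -
      (fun y : ℝ => ∑ j ∈ range n, ((y : ℂ) * Complex.I) ^ (j + 1) / ((j + 1).factorial : ℂ)) y - 1 := by
    funext y
    unfold RR
    rw [sum_range_succ']
    simp only [pow_zero, Nat.factorial_zero, Nat.cast_one, div_one]
    ring
  rw [h4]
  refine (h3.sub_const 1).congr_deriv ?_
  unfold RR
  rw [← sum_mul]
  ring

lemma RR_nonneg (n : ℕ) : ∀ x : ℝ, 0 ≤ x → ‖RR n x‖ ≤ x ^ n / n.factorial := by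
  induction n with
  | zero =>
    intro x _
    unfold RR
    simp [Complex.norm_exp_ofReal_mul_I]
  | succ n ih =>
    intro x hx
    have h0 : RR (n + 1) 0 = 0 := by
      unfold RR
      rw [sum_range_succ']
      simp
    refine image_norm_le_of_norm_deriv_right_le_deriv_boundary (f := RR (n + 1)) (f' := fun y => Complex.I * RR n y)
      (a := 0) (b := x) (B := fun y => y ^ (n + 1) / (n + 1).factorial) (B' := fun y => y ^ n / n.factorial)
      (fun y _ => (RR_deriv n y).continuousAt.continuousWithinAt) (fun y _ => (RR_deriv n y).hasDerivWithinAt) ?_ ?_ ?_ ⟨hx, le_rfl⟩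
    · rw [h0]; simp
    · intro y
      have h1 := (hasDerivAt_pow (n + 1) y).div_const ((n + 1).factorial : ℝ)
      refine h1.congr_deriv ?_
      rw [Nat.factorial_succ]
      simp only [Nat.add_sub_cancel]
      have h5 : (n.factorial : ℝ) ≠ 0 := by exact_mod_cast Nat.factorial_ne_zero n
      have h6 : ((n : ℝ) + 1) ≠ 0 := by positivity
      push_cast
      field_simp
    · intro y hy
      rw [norm_mul, Complex.norm_I, one_mul]
      exact ih y hy.1

lemma RR_neg (n : ℕ) (x : ℝ) : RR n (-x) = (starRingEnd ℂ) (RR n x) := by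
  unfold RR
  rw [map_sub, ← Complex.exp_conj, map_sum]
  congr 1
  · congr 1
    rw [map_mul, Complex.conj_I, Complex.conj_ofReal]
    push_cast; ring
  · refine sum_congr rfl fun j _ => ?_
    rw [map_div₀, map_pow, map_mul, Complex.conj_I, Complex.conj_ofReal, map_natCast]
    push_cast
    congr 2
    ring

lemma tay (n : ℕ) (x : ℝ) : ‖RR n x‖ ≤ |x| ^ n / n.factorial := by
  rcases le_total 0 x with h | h
  · rw [abs_of_nonneg h]; exact RR_nonneg n x h
  · rw [abs_of_nonpos h]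
    have h1 := RR_nonneg n (-x) (by linarith)
    rw [RR_neg, RCLike.norm_conj] at h1
    exact h1

/-- the characteristic function of a sum -/
def cf (Ω : Finset ℤ) (c : ℕ → ℝ) (K : ℕ) (θ : ℝ) : ℂ := mean Ω (fun D => Complex.exp (((θ * SS c K D : ℝ) : ℂ) * Complex.I))

lemma mean_ofReal (Ω : Finset ℤ) (F : ℤ → ℝ) : mean Ω (fun D => ((F D : ℝ) : ℂ)) = ((mean Ω F : ℝ) : ℂ) := by
  unfold mean
  push_cast
  rfl

lemma cf_eq (Ω : Finset ℤ) (c : ℕ → ℝ) (K : ℕ) (θ : ℝ) (r : ℕ) : cf Ω c K θ =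
    ∑ j ∈ range r, ((θ : ℂ) * Complex.I) ^ j / (j.factorial : ℂ) * ((mean Ω (fun D => SS c K D ^ j) : ℝ) : ℂ) +
      mean Ω (fun D => RR r (θ * SS c K D)) := by
  have h1 : cf Ω c K θ = mean Ω (fun D => (∑ j ∈ range r,
      ((θ : ℂ) * Complex.I) ^ j / (j.factorial : ℂ) * ((SS c K D ^ j : ℝ) : ℂ)) + RR r (θ * SS c K D)) := by
    unfold cf
    refine mean_congr fun D _ => ?_
    unfold RR
    have : ∑ j ∈ range r, ((θ : ℂ) * Complex.I) ^ j / (j.factorial : ℂ) * ((SS c K D ^ j : ℝ) : ℂ) =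
        ∑ j ∈ range r, (((θ * SS c K D : ℝ) : ℂ) * Complex.I) ^ j / (j.factorial : ℂ) := by
      refine sum_congr rfl fun j _ => ?_
      push_cast
      ring
    rw [this]
    ring
  rw [h1, mean_add, mean_sum]
  congr 1
  refine sum_congr rfl fun j _ => ?_
  rw [mean_const_mul, mean_ofReal]

/-- comparison of the characteristic functions -/
lemma cf_compare {K X : ℕ} (hX : ∀ k < K, pr k ≤ X) (hX1 : 1 ≤ X) (c : ℕ → ℝ) (hc : c 0 = 0)
    (hV : ∑ k ∈ range K, c k ^ 2 ≤ 1) {r : ℕ} (hr : Even r) {T : ℝ} (hT : 0 < T) {Z : ℝ} (hZ1 : 1 ≤ Z)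
    (hZ : T * (∑ k ∈ range K, |c k|) * X ≤ Z) (M : ℤ) (H : ℕ) (hH : 0 < H) {θ : ℝ} (hθ : |θ| ≤ T) :
    ‖cf (Ico M (M + H)) c K θ - cf (mod K) c K θ‖ ≤ (r + 1) * Z ^ r / H + 4 * Real.exp (2 * T ^ 2) / 2 ^ r := by
  set L := ∑ k ∈ range K, |c k| with hL
  have hL0 : 0 ≤ L := sum_nonneg fun _ _ => abs_nonneg _
  have hH0 : (0 : ℝ) < H := by exact_mod_cast hH
  have hθ0 := abs_nonneg θ
  have hX0 : (0 : ℝ) ≤ X := Nat.cast_nonneg _
  rw [cf_eq _ _ _ _ r, cf_eq _ _ _ _ r]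
  have h1 : ∀ a b d e : ℂ, (a + b) - (d + e) = (a - d) + b - e := fun a b d e => by ring
  rw [h1, ← sum_sub_distrib]
  -- terms
  have hterm : ∀ j, (|θ| * (L * X)) ^ j / (j.factorial : ℝ) ≤ Z ^ j := by
    intro j
    have e1 : |θ| * (L * X) ≤ Z := by
      refine le_trans ?_ hZ
      rw [mul_assoc]
      exact mul_le_mul_of_nonneg_right hθ (by positivity)
    have e2 : (|θ| * (L * X)) ^ j ≤ Z ^ j := pow_le_pow_left₀ (by positivity) e1 j
    refine (div_le_self (by positivity) ?_).trans e2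
    exact_mod_cast Nat.succ_le_of_lt (Nat.factorial_pos j)
  have hZr : ∀ j, j ≤ r → Z ^ j ≤ Z ^ r := fun j hj => pow_le_pow_right₀ hZ1 hj
  have h2 : ‖∑ j ∈ range r, (((θ : ℂ) * Complex.I) ^ j / (j.factorial : ℂ) *
      ((mean (Ico M (M + (H : ℤ))) (fun D => SS c K D ^ j) : ℝ) : ℂ) -
      ((θ : ℂ) * Complex.I) ^ j / (j.factorial : ℂ) * ((mean (mod K) (fun D => SS c K D ^ j) : ℝ) : ℂ))‖ ≤
      r * (Z ^ r / H) := by
    refine (norm_sum_le _ _).trans ?_
    have h3 : ∀ j ∈ range r, ‖((θ : ℂ) * Complex.I) ^ j / (j.factorial : ℂ) *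
      ((mean (Ico M (M + (H : ℤ))) (fun D => SS c K D ^ j) : ℝ) : ℂ) -
      ((θ : ℂ) * Complex.I) ^ j / (j.factorial : ℂ) * ((mean (mod K) (fun D => SS c K D ^ j) : ℝ) : ℂ)‖ ≤ Z ^ r / H := by
      intro j hj
      rw [← mul_sub, norm_mul, norm_div, norm_pow, norm_mul, Complex.norm_I, mul_one, Complex.norm_real, Complex.norm_natCast,
        ← Complex.ofReal_sub, Complex.norm_real, Real.norm_eq_abs, Real.norm_eq_abs]
      have h4 := mom_compare hX hX1 c j M H hH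
      have h5 : |θ| ^ j / (j.factorial : ℝ) * |mean (Ico M (M + (H : ℤ))) (fun D => SS c K D ^ j) -
          mean (mod K) (fun D => SS c K D ^ j)| ≤ |θ| ^ j / (j.factorial : ℝ) * ((L * X) ^ j / H) :=
        mul_le_mul_of_nonneg_left h4 (by positivity)
      refine h5.trans ?_
      have h6 : |θ| ^ j / (j.factorial : ℝ) * ((L * X) ^ j / H) = (|θ| * (L * X)) ^ j / (j.factorial : ℝ) / H := by
        rw [mul_pow]; ring
      rw [h6]
      exact div_le_div_of_nonneg_right ((hterm j).trans (hZr j (mem_range.1 hj).le)) hH0.le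
    refine (sum_le_sum h3).trans ?_
    rw [sum_const, card_range, nsmul_eq_mul]
  -- remainders
  have h3 : ∀ Ω : Finset ℤ, ‖mean Ω (fun D => RR r (θ * SS c K D))‖ ≤
      |θ| ^ r / r.factorial * mean Ω (fun D => SS c K D ^ r) := by
    intro Ω
    rw [← mean_const_mul]
    apply norm_mean_le
    intro D _
    refine (tay r _).trans (le_of_eq ?_)
    rw [abs_mul, mul_pow, hr.pow_abs (a := SS c K D)]
    ring
  have h4 := h3 (Ico M (M + (H : ℤ)))
  have h5 := h3 (mod K)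
  have h6 := mom_compare hX hX1 c r M H hH
  have h7 := pow_mean c hc K hV hr (l := 2 * T) (by positivity)
  have h8 : mean (Ico M (M + (H : ℤ))) (fun D => SS c K D ^ r) ≤
      mean (mod K) (fun D => SS c K D ^ r) + (L * X) ^ r / H := by
    have := (abs_le.1 h6).2
    linarith
  have h9 : (0 : ℝ) ≤ |θ| ^ r / r.factorial := by positivity
  have h10 : |θ| ^ r / r.factorial * mean (mod K) (fun D => SS c K D ^ r) ≤ 2 * Real.exp (2 * T ^ 2) / 2 ^ r := by
    refine (mul_le_mul_of_nonneg_left h7 h9).trans ?_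
    have e1 : |θ| ^ r ≤ T ^ r := pow_le_pow_left₀ hθ0 hθ r
    have e2 : |θ| ^ r / r.factorial * (2 * r.factorial * Real.exp ((2 * T) ^ 2 / 2) / (2 * T) ^ r) =
        (|θ| ^ r / T ^ r) * (2 * Real.exp (2 * T ^ 2) / 2 ^ r) := by
      have : (r.factorial : ℝ) ≠ 0 := by positivity
      have e3 : (2 * T) ^ 2 / 2 = 2 * T ^ 2 := by ring
      rw [e3, mul_pow]
      field_simp
    rw [e2]
    have e4 : |θ| ^ r / T ^ r ≤ 1 := div_le_one_of_le₀ e1 (by positivity)
    have e5 : 0 ≤ 2 * Real.exp (2 * T ^ 2) / 2 ^ r := by positivity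
    nlinarith
  have h11 : |θ| ^ r / r.factorial * ((L * X) ^ r / H) ≤ Z ^ r / H := by
    have h6 : |θ| ^ r / (r.factorial : ℝ) * ((L * X) ^ r / H) = (|θ| * (L * X)) ^ r / (r.factorial : ℝ) / H := by
      rw [mul_pow]; ring
    rw [h6]
    exact div_le_div_of_nonneg_right (hterm r) hH0.le
  have h12 : |θ| ^ r / r.factorial * mean (Ico M (M + (H : ℤ))) (fun D => SS c K D ^ r) ≤
      2 * Real.exp (2 * T ^ 2) / 2 ^ r + Z ^ r / H := by
    refine (mul_le_mul_of_nonneg_left h8 h9).trans ?_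
    rw [mul_add]
    exact add_le_add h10 h11
  have h13 := norm_sub_le (∑ j ∈ range r, (((θ : ℂ) * Complex.I) ^ j / (j.factorial : ℂ) *
      ((mean (Ico M (M + (H : ℤ))) (fun D => SS c K D ^ j) : ℝ) : ℂ) -
      ((θ : ℂ) * Complex.I) ^ j / (j.factorial : ℂ) * ((mean (mod K) (fun D => SS c K D ^ j) : ℝ) : ℂ)) +
      mean (Ico M (M + (H : ℤ))) (fun D => RR r (θ * SS c K D))) (mean (mod K) (fun D => RR r (θ * SS c K D)))
  have h14 := norm_add_le (∑ j ∈ range r, (((θ : ℂ) * Complex.I) ^ j / (j.factorial : ℂ) *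
      ((mean (Ico M (M + (H : ℤ))) (fun D => SS c K D ^ j) : ℝ) : ℂ) -
      ((θ : ℂ) * Complex.I) ^ j / (j.factorial : ℂ) * ((mean (mod K) (fun D => SS c K D ^ j) : ℝ) : ℂ)))
      (mean (Ico M (M + (H : ℤ))) (fun D => RR r (θ * SS c K D)))
  have e : (r + 1) * Z ^ r / H + 4 * Real.exp (2 * T ^ 2) / 2 ^ r =
      r * (Z ^ r / H) + (2 * Real.exp (2 * T ^ 2) / 2 ^ r + Z ^ r / H) + 2 * Real.exp (2 * T ^ 2) / 2 ^ r := by ring
  rw [e]
  linarith

/-! ### The model and the normal law -/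

lemma prod_sub (s : Finset ℕ) (a b : ℕ → ℂ) (ha : ∀ k ∈ s, ‖a k‖ ≤ 1) (hb : ∀ k ∈ s, ‖b k‖ ≤ 1) :
    ‖∏ k ∈ s, a k - ∏ k ∈ s, b k‖ ≤ ∑ k ∈ s, ‖a k - b k‖ := by
  classical
  induction s using Finset.induction_on with
  | empty => simp
  | insert x s hx ih =>
    rw [prod_insert hx, prod_insert hx, sum_insert hx]
    have e : a x * ∏ k ∈ s, a k - b x * ∏ k ∈ s, b k = a x * (∏ k ∈ s, a k - ∏ k ∈ s, b k) + (a x - b x) * ∏ k ∈ s, b k := by
      ring
    rw [e]
    refine (norm_add_le _ _).trans ?_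
    rw [norm_mul, norm_mul]
    have h1 := ih (fun k hk => ha k (mem_insert_of_mem hk)) (fun k hk => hb k (mem_insert_of_mem hk))
    have h2 := ha x (mem_insert_self _ _)
    have h3 : ‖∏ k ∈ s, b k‖ ≤ 1 := by
      rw [norm_prod]
      exact prod_le_one (fun _ _ => norm_nonneg _) fun k hk => hb k (mem_insert_of_mem hk)
    have h4 := norm_nonneg (∏ k ∈ s, a k - ∏ k ∈ s, b k)
    have h5 := norm_nonneg (a x - b x)
    nlinarith

/-- one factor -/
lemma factor {k : ℕ} (hk : k ≠ 0) {x : ℝ} (hx : |x| ≤ 1) :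
    ‖mean (res (pr k)) (fun D => Complex.exp (((x * chi k D : ℝ) : ℂ) * Complex.I)) - ((Real.exp (-x ^ 2 / 2) : ℝ) : ℂ)‖ ≤
      x ^ 2 / (2 * pr k) + x ^ 4 / 2 := by
  rw [mean_chi hk (fun y => Complex.exp (((x * y : ℝ) : ℂ) * Complex.I))]
  have hp : (1 : ℝ) < (pr k : ℝ) := by exact_mod_cast (pr_prime k).one_lt
  have e1 : (Complex.exp (((x * 1 : ℝ) : ℂ) * Complex.I) + Complex.exp (((x * (-1) : ℝ) : ℂ) * Complex.I)) / 2 =
      ((Real.cos x : ℝ) : ℂ) := by
    rw [Complex.ofReal_cos, Complex.cos]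
    congr 2
    · rw [mul_one]
    · congr 1; push_cast; ring
  rw [e1, mul_zero, Complex.ofReal_zero, zero_mul, Complex.exp_zero, mul_one]
  have e2 : (1 : ℂ) / ((pr k : ℕ) : ℂ) + (1 - 1 / ((pr k : ℕ) : ℂ)) * ((Real.cos x : ℝ) : ℂ) -
      ((Real.exp (-x ^ 2 / 2) : ℝ) : ℂ) =
      (((1 / (pr k : ℝ)) * (1 - Real.cos x) + (Real.cos x - (1 - x ^ 2 / 2)) +
        ((1 - x ^ 2 / 2) - Real.exp (-x ^ 2 / 2)) : ℝ) : ℂ) := by
    push_cast; ring
  rw [e2, Complex.norm_real, Real.norm_eq_abs]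
  have h1 : |Real.cos x - (1 - x ^ 2 / 2)| ≤ |x| ^ 4 * (5 / 96) := Real.cos_bound hx
  have h2 : |Real.exp (-x ^ 2 / 2) - 1 - (-x ^ 2 / 2)| ≤ (-x ^ 2 / 2) ^ 2 := by
    apply Real.abs_exp_sub_one_sub_id_le
    have h3 : x ^ 2 ≤ 1 := by
      rw [← sq_abs]; exact pow_le_one₀ (abs_nonneg _) hx
    rw [abs_le]
    constructor <;> nlinarith [sq_nonneg x]
  have h3 : 1 - Real.cos x ≤ x ^ 2 / 2 := by have := Real.one_sub_sq_div_two_le_cos (x := x); linarith
  have h4 : 0 ≤ 1 - Real.cos x := by linarith [Real.cos_le_one x]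
  have h5 : |x| ^ 4 = x ^ 4 := by
    rw [show (4 : ℕ) = 2 * 2 by norm_num, pow_mul, pow_mul, sq_abs]
  rw [h5] at h1
  have h6 : (1 / (pr k : ℝ)) * (1 - Real.cos x) ≤ x ^ 2 / (2 * pr k) := by
    have : (1 / (pr k : ℝ)) * (1 - Real.cos x) ≤ (1 / (pr k : ℝ)) * (x ^ 2 / 2) :=
      mul_le_mul_of_nonneg_left h3 (by positivity)
    refine this.trans (le_of_eq ?_)
    field_simp
  have h7 : 0 ≤ (1 / (pr k : ℝ)) * (1 - Real.cos x) := by positivity
  have h8 : 0 ≤ x ^ 4 := by positivity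
  rw [abs_le] at h1 h2 ⊢
  constructor <;> nlinarith [h1.1, h1.2, h2.1, h2.2]

/-- the characteristic function in the model -/
lemma cf_mod (c : ℕ → ℝ) (K : ℕ) (θ : ℝ) : cf (mod K) c K θ =
    ∏ k ∈ range K, mean (res (pr k)) (fun D => Complex.exp (((θ * c k * chi k D : ℝ) : ℂ) * Complex.I)) := by
  have h1 : cf (mod K) c K θ = mean (mod K) (fun D => ∏ k ∈ range K,
      (fun k D => Complex.exp (((θ * c k * chi k D : ℝ) : ℂ) * Complex.I)) k D) := by
    unfold cf
    refine mean_congr fun D _ => ?_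
    rw [← Complex.exp_sum, ← sum_mul]
    congr 2
    unfold SS
    push_cast
    rw [mul_sum]
    exact sum_congr rfl fun k _ => by ring
  rw [h1, mean_mod (Subset.refl _) (fun k D => Complex.exp (((θ * c k * chi k D : ℝ) : ℂ) * Complex.I))
    (fun k D => by simp only [chi_mod])]

/-- the model is nearly normal -/
lemma model (c : ℕ → ℝ) (hc : c 0 = 0) (K : ℕ) {T : ℝ} (hT : 0 < T) {θ : ℝ} (hθ : |θ| ≤ T) {δ : ℝ}
    (hδT : T ^ 2 * δ ≤ 1) (hcδ : ∀ k < K, c k ^ 2 ≤ δ) (hV : ∑ k ∈ range K, c k ^ 2 ≤ 1) (hV1 : 1 - δ ≤ ∑ k ∈ range K, c k ^ 2)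
    (m : ℕ) (hm : 1 ≤ m) :
    ‖cf (mod K) c K θ - Complex.exp (-(θ : ℂ) ^ 2 / 2)‖ ≤ T ^ 2 / 2 * (m * δ + 1 / m) + T ^ 4 / 2 * δ + T ^ 2 * δ / 2 := by
  have hθ2 : θ ^ 2 ≤ T ^ 2 := by rw [← sq_abs θ]; exact pow_le_pow_left₀ (abs_nonneg _) hθ 2
  set V := ∑ k ∈ range K, c k ^ 2 with hVdef
  have hm0 : (0 : ℝ) < m := by exact_mod_cast hm
  -- the Gaussian as a product
  have h1 : ((Real.exp (-θ ^ 2 * V / 2) : ℝ) : ℂ) = ∏ k ∈ range K, ((Real.exp (-(θ * c k) ^ 2 / 2) : ℝ) : ℂ) := by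
    rw [← Complex.ofReal_prod, ← Real.exp_sum, hVdef, mul_sum, sum_div]
    congr 2
    exact sum_congr rfl fun k _ => by ring
  have h2 : ‖cf (mod K) c K θ - ((Real.exp (-θ ^ 2 * V / 2) : ℝ) : ℂ)‖ ≤
      ∑ k ∈ range K, ((θ * c k) ^ 2 / (2 * pr k) + (θ * c k) ^ 4 / 2) := by
    rw [h1, cf_mod]
    refine (prod_sub _ _ _ ?_ ?_).trans (sum_le_sum ?_)
    · intro k _
      refine (norm_mean_le _ _ (fun _ => (1 : ℝ)) fun D _ => ?_).trans (le_of_eq ?_)
      · rw [Complex.norm_exp_ofReal_mul_I]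
      · exact mean_one ⟨0, mem_res.2 ⟨le_rfl, by exact_mod_cast (pr_prime k).pos⟩⟩
    · intro k _
      rw [Complex.norm_real, Real.norm_eq_abs, abs_of_pos (Real.exp_pos _), Real.exp_le_one_iff]
      have := sq_nonneg (θ * c k)
      linarith
    · intro k hk
      by_cases hk0 : k = 0
      · subst hk0
        rw [hc]
        simp only [mul_zero, zero_mul, Complex.ofReal_zero, Complex.exp_zero]
        rw [mean_one ⟨0, mem_res.2 ⟨le_rfl, by exact_mod_cast (pr_prime 0).pos⟩⟩]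
        simp
      · apply factor hk0
        have h3 : (θ * c k) ^ 2 ≤ 1 := by
          rw [mul_pow]
          have h4 := hcδ k (mem_range.1 hk)
          calc θ ^ 2 * c k ^ 2 ≤ T ^ 2 * δ := mul_le_mul hθ2 h4 (sq_nonneg _) (sq_nonneg _)
            _ ≤ 1 := hδT
        exact abs_le_one_iff_mul_self_le_one.2 (by rw [← sq]; exact h3)
  -- the sum
  have h3 : ∑ k ∈ range K, ((θ * c k) ^ 2 / (2 * pr k) + (θ * c k) ^ 4 / 2) ≤
      T ^ 2 / 2 * (m * δ + 1 / m) + T ^ 4 / 2 * δ := by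
    rw [sum_add_distrib]
    refine add_le_add ?_ ?_
    · have h4 : ∀ k ∈ range K, (θ * c k) ^ 2 / (2 * pr k) ≤ T ^ 2 / 2 * ((if k < m then δ else 0) + c k ^ 2 * (1 / m)) := by
        intro k hk
        have h5 := hcδ k (mem_range.1 hk)
        have hp : (1 : ℝ) < (pr k : ℝ) := by exact_mod_cast (pr_prime k).one_lt
        have h6 : (θ * c k) ^ 2 / (2 * pr k) = θ ^ 2 / 2 * (c k ^ 2 / pr k) := by field_simp
        rw [h6]
        have h7 : c k ^ 2 / pr k ≤ (if k < m then δ else 0) + c k ^ 2 * (1 / m) := by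
          split_ifs with h8
          · have : c k ^ 2 / pr k ≤ c k ^ 2 := div_le_self (sq_nonneg _) hp.le
            have : 0 ≤ c k ^ 2 * (1 / m) := by positivity
            linarith
          · rw [zero_add, div_eq_mul_one_div]
            apply mul_le_mul_of_nonneg_left _ (sq_nonneg _)
            apply one_div_le_one_div_of_le hm0
            have : m ≤ pr k := by have := lt_pr k; omega
            exact_mod_cast this
        have h8 : 0 ≤ c k ^ 2 / pr k := by positivity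
        calc θ ^ 2 / 2 * (c k ^ 2 / pr k) ≤ T ^ 2 / 2 * (c k ^ 2 / pr k) := by
              apply mul_le_mul_of_nonneg_right _ h8; linarith
          _ ≤ _ := mul_le_mul_of_nonneg_left h7 (by positivity)
      refine (sum_le_sum h4).trans ?_
      rw [← mul_sum, sum_add_distrib, ← sum_mul]
      apply mul_le_mul_of_nonneg_left _ (by positivity)
      have hδ0 : 0 ≤ δ := by
        by_contra hcon
        push Not at hcon
        have : ∀ k ∈ range K, c k ^ 2 ≤ 0 := fun k hk => (hcδ k (mem_range.1 hk)).trans hcon.le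
        have := sum_nonpos this
        linarith
      refine add_le_add ?_ ?_
      · rw [← sum_filter, sum_const, nsmul_eq_mul]
        apply mul_le_mul_of_nonneg_right _ hδ0
        have : ((range K).filter (fun k => k < m)).card ≤ m := by
          calc _ ≤ (range m).card := card_le_card fun k hk => mem_range.2 (mem_filter.1 hk).2
            _ = m := card_range m
        exact_mod_cast this
      · have : 0 ≤ 1 / (m : ℝ) := by positivity
        calc V * (1 / m) ≤ 1 * (1 / m) := mul_le_mul_of_nonneg_right hV this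
          _ = 1 / m := one_mul _
    · have h4 : ∀ k ∈ range K, (θ * c k) ^ 4 / 2 ≤ T ^ 4 / 2 * δ * c k ^ 2 := by
        intro k hk
        have h5 := hcδ k (mem_range.1 hk)
        have h6 : (θ * c k) ^ 4 / 2 = (θ ^ 2) ^ 2 / 2 * (c k ^ 2) * c k ^ 2 := by ring
        rw [h6]
        apply mul_le_mul_of_nonneg_right _ (sq_nonneg _)
        have h7 : (θ ^ 2) ^ 2 ≤ (T ^ 2) ^ 2 := pow_le_pow_left₀ (sq_nonneg _) hθ2 2
        have h8 : T ^ 4 = (T ^ 2) ^ 2 := by ring
        rw [h8]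
        exact mul_le_mul (by linarith) h5 (sq_nonneg _) (by positivity)
      refine (sum_le_sum h4).trans ?_
      rw [← mul_sum]
      have hδ0 : 0 ≤ δ := by
        by_contra hcon
        push Not at hcon
        have : ∀ k ∈ range K, c k ^ 2 ≤ 0 := fun k hk => (hcδ k (mem_range.1 hk)).trans hcon.le
        have := sum_nonpos this
        linarith
      have h9 : 0 ≤ T ^ 4 / 2 * δ := by positivity
      nlinarith
  -- change of the variance
  have h4 : ‖((Real.exp (-θ ^ 2 * V / 2) : ℝ) : ℂ) - Complex.exp (-(θ : ℂ) ^ 2 / 2)‖ ≤ T ^ 2 * δ / 2 := by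
    have e1 : Complex.exp (-(θ : ℂ) ^ 2 / 2) = ((Real.exp (-θ ^ 2 / 2) : ℝ) : ℂ) := by push_cast; rfl
    rw [e1, ← Complex.ofReal_sub, Complex.norm_real, Real.norm_eq_abs]
    have e2 : Real.exp (-θ ^ 2 / 2) = Real.exp (-θ ^ 2 * V / 2) * Real.exp (-θ ^ 2 * (1 - V) / 2) := by
      rw [← Real.exp_add]; congr 1; ring
    set y := θ ^ 2 * (1 - V) / 2 with hy
    have hy0 : 0 ≤ y := by
      rw [hy]; have := sq_nonneg θ; have : 0 ≤ 1 - V := by linarith
      positivity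
    have hy1 : y ≤ T ^ 2 * δ / 2 := by
      rw [hy]
      have : θ ^ 2 * (1 - V) ≤ T ^ 2 * δ := mul_le_mul hθ2 (by linarith) (by linarith) (sq_nonneg _)
      linarith
    have e3 : Real.exp (-θ ^ 2 * (1 - V) / 2) = Real.exp (-y) := by congr 1; rw [hy]; ring
    rw [e2, e3]
    have h5 : Real.exp (-θ ^ 2 * V / 2) ≤ 1 := by
      rw [Real.exp_le_one_iff]
      have : 0 ≤ θ ^ 2 * V := mul_nonneg (sq_nonneg _) (sum_nonneg fun _ _ => sq_nonneg _)
      linarith
    have h6 := Real.exp_pos (-θ ^ 2 * V / 2)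
    have h7 : 1 - y ≤ Real.exp (-y) := by have := Real.add_one_le_exp (-y); linarith
    have h8 : Real.exp (-y) ≤ 1 := by rw [Real.exp_le_one_iff]; linarith
    rw [abs_le]
    constructor <;> nlinarith
  calc ‖cf (mod K) c K θ - Complex.exp (-(θ : ℂ) ^ 2 / 2)‖
      ≤ ‖cf (mod K) c K θ - ((Real.exp (-θ ^ 2 * V / 2) : ℝ) : ℂ)‖ +
        ‖((Real.exp (-θ ^ 2 * V / 2) : ℝ) : ℂ) - Complex.exp (-(θ : ℂ) ^ 2 / 2)‖ := norm_sub_le_norm_sub_add_norm_sub _ _ _
    _ ≤ _ := by linarith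

end

end Pool.Agent.J4.H33.GL
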