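import Mathlib
import Pool.Agent.J4.H33.GL.Tay
import Pool.Agent.J4.H33.GL.Levy

set_option autoImplicit false

/-! # The normal law for sums of quadratic characters -/

namespace Pool.Agent.J4.H33.GL

open Finset Pool.Agent.J4.H33.LIL MeasureTheory

noncomputable section

/-- the distribution of the values of a function on a finite set -/
def law (Ω : Finset ℤ) (F : ℤ → ℝ) : Measure ℝ := (Ω.card : ENNReal)⁻¹ • ∑ D ∈ Ω, Measure.dirac (F D)

lemma law_prob {Ω : Finset ℤ} (h : Ω.Nonempty) (F : ℤ → ℝ) : IsProbabilityMeasure (law Ω F) := by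
  constructor
  unfold law
  rw [Measure.smul_apply, Measure.finsetSum_apply]
  simp only [measure_univ, sum_const, nsmul_eq_mul, mul_one, smul_eq_mul]
  exact ENNReal.inv_mul_cancel (by exact_mod_cast (card_pos.2 h).ne') (ENNReal.natCast_ne_top _)

open Classical in
lemma law_Iic (Ω : Finset ℤ) (F : ℤ → ℝ) (t : ℝ) :
    (law Ω F).real (Set.Iic t) = ((Ω.filter (fun D => F D ≤ t)).card : ℝ) / Ω.card := by
  unfold law
  rw [Measure.real, Measure.smul_apply, Measure.finsetSum_apply]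
  have h1 : ∑ D ∈ Ω, (Measure.dirac (F D)) (Set.Iic t) = ((Ω.filter (fun D => F D ≤ t)).card : ENNReal) := by
    have h2 : ∀ D ∈ Ω, (Measure.dirac (F D)) (Set.Iic t) = if F D ≤ t then 1 else 0 := by
      intro D _
      rw [Measure.dirac_apply' _ measurableSet_Iic]
      by_cases h : F D ≤ t
      · rw [Set.indicator_of_mem (by exact h), if_pos h]; rfl
      · rw [Set.indicator_of_notMem (by exact h), if_neg h]
    rw [sum_congr rfl h2, sum_boole]
  rw [h1]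
  simp only [smul_eq_mul, ENNReal.toReal_mul, ENNReal.toReal_inv, ENNReal.toReal_natCast]
  rw [div_eq_inv_mul]

lemma law_charFun (Ω : Finset ℤ) (F : ℤ → ℝ) (θ : ℝ) :
    charFun (law Ω F) θ = mean Ω (fun D => Complex.exp (((θ * F D : ℝ) : ℂ) * Complex.I)) := by
  rw [charFun_apply_real]
  unfold law mean
  rw [integral_smul_measure, integral_finsetSum_measure]
  · simp only [integral_dirac]
    rw [ENNReal.toReal_inv, ENNReal.toReal_natCast, Complex.real_smul]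
    push_cast
    rw [div_eq_inv_mul]
  · intro D _
    exact integrable_dirac (by simp)

open Classical in
/-- **The normal law for sums of quadratic characters**, uniformly in the length of the sum (up to a power of the length of the
interval) and in the coefficients. -/
theorem core (ε : ℝ) (hε : 0 < ε) : ∃ δ : ℝ, ∃ r : ℕ, 0 < δ ∧ ∀ (K X H : ℕ) (M : ℤ) (c : ℕ → ℝ),
    (∀ k < K, pr k ≤ X) → 1 ≤ X → c 0 = 0 → (∀ k < K, c k ^ 2 ≤ δ) → ∑ k ∈ range K, c k ^ 2 ≤ 1 →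
    1 - δ ≤ ∑ k ∈ range K, c k ^ 2 → 0 < H → ((K : ℝ) * X) ^ r ≤ δ * H →
    ∀ t : ℝ, |(((Ico M (M + H)).filter (fun D => SS c K D ≤ t)).card : ℝ) / H - Phi t| ≤ ε := by
  obtain ⟨T, κ, hT, hκ, hlevy⟩ := levy ε hε
  -- the parameters
  obtain ⟨q, hq⟩ : ∃ q : ℕ, 16 * Real.exp (2 * T ^ 2) / κ ≤ 2 ^ q := by
    obtain ⟨q, hq⟩ := pow_unbounded_of_one_lt (16 * Real.exp (2 * T ^ 2) / κ) (by norm_num : (1 : ℝ) < 2)
    exact ⟨q, hq.le⟩
  set r : ℕ := 2 * q with hr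
  have hrE : Even r := ⟨q, by rw [hr]; ring⟩
  have h2r : 4 * Real.exp (2 * T ^ 2) / 2 ^ r ≤ κ / 4 := by
    have h1 : (2 : ℝ) ^ q ≤ 2 ^ r := pow_le_pow_right₀ (by norm_num) (by omega)
    rw [div_le_iff₀ hκ] at hq
    rw [div_le_iff₀ (by positivity)]
    nlinarith
  obtain ⟨m, hm⟩ := exists_nat_ge (4 * T ^ 2 / κ + 1)
  have hm1 : 1 ≤ m := by
    have : (0 : ℝ) ≤ 4 * T ^ 2 / κ := by positivity
    have : (1 : ℝ) ≤ m := by linarith
    exact_mod_cast this
  have hm0 : (0 : ℝ) < m := by exact_mod_cast hm1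
  have hmκ : T ^ 2 / 2 * (1 / m) ≤ κ / 8 := by
    have h1 : 4 * T ^ 2 / κ ≤ m := by linarith
    rw [div_le_iff₀ hκ] at h1
    have : T ^ 2 / 2 * (1 / m) = T ^ 2 / (2 * m) := by field_simp
    rw [this, div_le_iff₀ (by positivity)]
    nlinarith
  set G : ℝ := 3 + T ^ 2 + 8 / κ * (T ^ 2 / 2 * m + T ^ 4 / 2 + T ^ 2 / 2) + 4 / κ * ((r + 1) * (1 + T) ^ r) with hG
  have g1 : 0 ≤ 8 / κ * (T ^ 2 / 2 * m + T ^ 4 / 2 + T ^ 2 / 2) := by positivity
  have g2 : 0 ≤ 4 / κ * ((r + 1) * (1 + T) ^ r) := by positivity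
  have g3 : 0 ≤ T ^ 2 := sq_nonneg _
  have hG0 : 3 ≤ G := by rw [hG]; linarith
  have hGp : 0 < G := by linarith
  refine ⟨1 / G, r, by positivity, ?_⟩
  intro K X H M c hX hX1 hc0 hcδ hV hV1 hH hKX t
  set δ : ℝ := 1 / G with hδ
  have hδ0 : 0 < δ := by positivity
  have hδ3 : δ ≤ 1 / 3 := by rw [hδ]; exact one_div_le_one_div_of_le (by norm_num) hG0
  have hGδ : G * δ = 1 := by rw [hδ]; field_simp
  have d1 : T ^ 2 * δ ≤ 1 := by
    refine le_trans (mul_le_mul_of_nonneg_right ?_ hδ0.le) hGδ.le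
    rw [hG]; linarith
  have d2 : (T ^ 2 / 2 * m + T ^ 4 / 2 + T ^ 2 / 2) * δ ≤ κ / 8 := by
    have : 8 / κ * (T ^ 2 / 2 * m + T ^ 4 / 2 + T ^ 2 / 2) * δ ≤ 1 := by
      refine le_trans (mul_le_mul_of_nonneg_right ?_ hδ0.le) hGδ.le
      rw [hG]; linarith
    have e : 8 / κ * (T ^ 2 / 2 * m + T ^ 4 / 2 + T ^ 2 / 2) * δ = ((T ^ 2 / 2 * m + T ^ 4 / 2 + T ^ 2 / 2) * δ) * (8 / κ) := by ring
    rw [e, ← le_div_iff₀ (by positivity)] at this
    refine this.trans (le_of_eq ?_)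
    field_simp
  have d3 : ((r + 1) * (1 + T) ^ r) * δ ≤ κ / 4 := by
    have : 4 / κ * ((r + 1) * (1 + T) ^ r) * δ ≤ 1 := by
      refine le_trans (mul_le_mul_of_nonneg_right ?_ hδ0.le) hGδ.le
      rw [hG]; linarith
    have e : 4 / κ * ((r + 1) * (1 + T) ^ r) * δ = (((r + 1) * (1 + T) ^ r) * δ) * (4 / κ) := by ring
    rw [e, ← le_div_iff₀ (by positivity)] at this
    refine this.trans (le_of_eq ?_)
    field_simp
  have hK1 : 1 ≤ K := by
    rcases Nat.eq_zero_or_pos K with h | h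
    · subst h
      simp at hV1
      linarith
    · exact h
  have hK1' : (1 : ℝ) ≤ K := by exact_mod_cast hK1
  have hX1' : (1 : ℝ) ≤ X := by exact_mod_cast hX1
  have hH0 : (0 : ℝ) < H := by exact_mod_cast hH
  have hne : (Ico M (M + (H : ℤ))).Nonempty := by
    rw [nonempty_Ico]; omega
  have hcard : (Ico M (M + (H : ℤ))).card = H := by simp
  have hL : ∑ k ∈ range K, |c k| ≤ K := by
    calc ∑ k ∈ range K, |c k| ≤ ∑ k ∈ range K, (1 : ℝ) := by
          refine sum_le_sum fun k hk => ?_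
          have h1 : c k ^ 2 ≤ 1 := (hcδ k (mem_range.1 hk)).trans (by linarith)
          exact abs_le_one_iff_mul_self_le_one.2 (by rw [← sq]; exact h1)
      _ = K := by simp
  set Z : ℝ := (1 + T) * (K * X) with hZ
  have hKXp : (1 : ℝ) ≤ K * X := by nlinarith
  have hZ1 : 1 ≤ Z := by rw [hZ]; nlinarith
  have hZ2 : T * (∑ k ∈ range K, |c k|) * X ≤ Z := by
    have h1 : T * (∑ k ∈ range K, |c k|) ≤ (1 + T) * K := by
      have h2 : 0 ≤ ∑ k ∈ range K, |c k| := sum_nonneg fun _ _ => abs_nonneg _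
      nlinarith
    calc T * (∑ k ∈ range K, |c k|) * X ≤ (1 + T) * K * X := mul_le_mul_of_nonneg_right h1 (by linarith)
      _ = Z := by rw [hZ]; ring
  have hprob := law_prob hne (SS c K)
  have hmain := hlevy (law (Ico M (M + H)) (SS c K)) hprob (fun θ hθ => by
    rw [law_charFun]
    have a1 := cf_compare hX hX1 c hc0 hV hrE hT hZ1 hZ2 M H hH hθ
    have a2 := model c hc0 K hT hθ d1 hcδ hV hV1 m hm1
    have a3 : (r + 1) * Z ^ r / H ≤ κ / 4 := by
      rw [div_le_iff₀ hH0]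
      have e1 : (r + 1) * Z ^ r = ((r + 1) * (1 + T) ^ r) * (K * X : ℝ) ^ r := by rw [hZ, mul_pow]; ring
      rw [e1]
      calc ((r + 1) * (1 + T) ^ r) * (K * X : ℝ) ^ r ≤ ((r + 1) * (1 + T) ^ r) * (δ * H) :=
            mul_le_mul_of_nonneg_left hKX (by positivity)
        _ = (((r + 1) * (1 + T) ^ r) * δ) * H := by ring
        _ ≤ κ / 4 * H := mul_le_mul_of_nonneg_right d3 hH0.le
    have a4 : T ^ 2 / 2 * (m * δ + 1 / m) + T ^ 4 / 2 * δ + T ^ 2 * δ / 2 ≤ κ / 4 := by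
      have e : T ^ 2 / 2 * (m * δ + 1 / m) + T ^ 4 / 2 * δ + T ^ 2 * δ / 2 =
          (T ^ 2 / 2 * m + T ^ 4 / 2 + T ^ 2 / 2) * δ + T ^ 2 / 2 * (1 / m) := by ring
      rw [e]; linarith
    have a5 : ‖cf (Ico M (M + (H : ℤ))) c K θ - Complex.exp (-(θ : ℂ) ^ 2 / 2)‖ ≤
        ‖cf (Ico M (M + (H : ℤ))) c K θ - cf (mod K) c K θ‖ + ‖cf (mod K) c K θ - Complex.exp (-(θ : ℂ) ^ 2 / 2)‖ :=
      norm_sub_le_norm_sub_add_norm_sub _ _ _
    show ‖cf (Ico M (M + (H : ℤ))) c K θ - Complex.exp (-(θ : ℂ) ^ 2 / 2)‖ ≤ κ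
    linarith) t
  rw [law_Iic, hcard] at hmain
  exact hmain

end

end Pool.Agent.J4.H33.GL
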