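import Mathlib
import Pool.Agent.J4.H33.GL.Core

set_option autoImplicit false

/-! # Frobenius angles of the twists and sums of quadratic characters -/

namespace Pool.Agent.J4.H33.GL

open Finset Pool.Agent.J4.H33.LIL Pool.Agent.W406.TW

noncomputable section

/-- the bound for the `K`-th prime -/
theorem pr_le {K : ℕ} (hK : 6 ≤ K) : (pr K : ℝ) ≤ 36 * K ^ 2 := by
  set n := pr K with hn
  have hnp : n.Prime := pr_prime K
  have hnK : K + 2 ≤ n := Nat.add_two_le_nth_prime K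
  have hpi : Nat.primeCounting n = K + 1 := by
    unfold Nat.primeCounting Nat.primeCounting'
    rw [Nat.count_succ, if_pos hnp, hn]
    unfold pr
    rw [Nat.count_nth_of_infinite Nat.infinite_setOfPred_prime]
  have h1 := Chebyshev.psi_le_primeCounting_mul_log n
  have h2 := Chebyshev.psi_ge n
  rw [hpi] at h1
  push_cast at h1
  have hKr : (6 : ℝ) ≤ K := by exact_mod_cast hK
  have hnr : (8 : ℝ) ≤ n := by exact_mod_cast (by omega : 8 ≤ n)
  have hlog2 := Real.log_two_gt_d9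
  have hln : 0 < Real.log n := Real.log_pos (by linarith)
  have h3 : Real.log (n + 1) ≤ 2 * Real.log n := by
    rw [← Real.log_rpow (by linarith), ← Nat.cast_ofNat (n := 2)]
    rw [Real.rpow_natCast]
    exact Real.log_le_log (by linarith) (by nlinarith)
  have h4 : (n : ℝ) * Real.log 2 ≤ (K + 3) * Real.log n := by linarith
  have h5 : (n : ℝ) * 0.69 ≤ (K + 3) * Real.log n := le_trans (by nlinarith) h4
  set t := Real.sqrt n with ht
  have htt : t * t = n := Real.mul_self_sqrt (by linarith)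
  have ht0 : 0 < t := Real.sqrt_pos.2 (by linarith)
  have h6 : Real.log n = 2 * Real.log t := by
    rw [← htt, Real.log_mul ht0.ne' ht0.ne']; ring
  have h7 : Real.log t ≤ t := by
    have := Real.log_le_sub_one_of_pos ht0; linarith
  have h8 : t ≤ 3 * (K + 3) := by
    by_contra hcon
    push Not at hcon
    have : t * t * 0.69 ≤ (K + 3) * (2 * t) := by
      rw [htt]
      refine h5.trans ?_
      rw [h6]
      nlinarith
    nlinarith
  rw [← htt]
  nlinarith

/-- at most `log₂ |n|` of the primes divide `n` -/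
lemma card_div (n : ℤ) (hn : n ≠ 0) (K : ℕ) :
    (((range K).filter (fun k => (pr k : ℤ) ∣ n)).card : ℝ) * Real.log 2 ≤ Real.log |(n : ℝ)| := by
  set S := (range K).filter (fun k => (pr k : ℤ) ∣ n) with hS
  have h1 : ∏ k ∈ S, (pr k : ℤ) ∣ n := by
    apply Finset.prod_dvd_of_coprime
    · intro a _ b _ hab
      show IsCoprime (pr a : ℤ) (pr b : ℤ)
      rw [Nat.isCoprime_iff_coprime, Nat.coprime_primes (pr_prime a) (pr_prime b)]
      exact fun h => hab (pr_inj h)
    · intro k hk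
      exact (mem_filter.1 hk).2
  have h2 : ∏ k ∈ S, (pr k : ℤ) ≤ |n| := Int.le_of_dvd (abs_pos.2 hn) ((dvd_abs _ _).2 h1)
  have h3 : (2 : ℤ) ^ S.card ≤ ∏ k ∈ S, (pr k : ℤ) := by
    rw [← prod_const]
    apply prod_le_prod
    · intro _ _; norm_num
    · intro k _
      exact_mod_cast (pr_prime k).two_le
  have h4 : (2 : ℝ) ^ S.card ≤ |(n : ℝ)| := by exact_mod_cast h3.trans h2
  have h5 := Real.log_le_log (by positivity) h4
  rw [Real.log_pow] at h5
  exact h5

/-- the number of the primes `p_k`, `k < K`, dividing `D` -/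
def om (K : ℕ) (D : ℤ) : ℕ := ((range K).filter (fun k => (pr k : ℤ) ∣ D)).card

/-- few integers have many small prime factors -/
lemma few_om (K : ℕ) (M : ℤ) (H : ℕ) {τ : ℝ} (hτ : 0 < τ) :
    (((Ico M (M + H)).filter (fun D => τ < om K D)).card : ℝ) ≤ (H * (1 + Real.log K) + K) / τ := by
  classical
  rw [le_div_iff₀ hτ]
  have h1 : (((Ico M (M + (H : ℤ))).filter (fun D => τ < om K D)).card : ℝ) * τ ≤ ∑ D ∈ Ico M (M + (H : ℤ)), (om K D : ℝ) := by
    calc (((Ico M (M + (H : ℤ))).filter (fun D => τ < om K D)).card : ℝ) * τ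
        = ∑ D ∈ (Ico M (M + (H : ℤ))).filter (fun D => τ < om K D), τ := by rw [sum_const, nsmul_eq_mul]
      _ ≤ ∑ D ∈ (Ico M (M + (H : ℤ))).filter (fun D => τ < om K D), (om K D : ℝ) :=
          sum_le_sum fun D hD => (mem_filter.1 hD).2.le
      _ ≤ _ := sum_le_sum_of_subset_of_nonneg (filter_subset _ _) fun _ _ _ => by positivity
  refine h1.trans ?_
  have h2 : ∑ D ∈ Ico M (M + (H : ℤ)), (om K D : ℝ) =
      ∑ k ∈ range K, (((Ico M (M + (H : ℤ))).filter (fun D => (pr k : ℤ) ∣ D)).card : ℝ) := by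
    have h3 : ∀ D ∈ Ico M (M + (H : ℤ)), (om K D : ℝ) = ∑ k ∈ range K, if (pr k : ℤ) ∣ D then (1 : ℝ) else 0 := by
      intro D _
      unfold om
      rw [sum_boole]
    rw [sum_congr rfl h3, sum_comm]
    refine sum_congr rfl fun k _ => ?_
    rw [sum_boole]
  rw [h2]
  have h3 : ∀ k ∈ range K, (((Ico M (M + (H : ℤ))).filter (fun D => (pr k : ℤ) ∣ D)).card : ℝ) ≤ H * (1 / (k + 1)) + 1 := by
    intro k _
    have h4 := class_card (pr k) (pr_prime k).pos M H 0
    have h5 : (Ico M (M + (H : ℤ))).filter (fun D => D % (pr k : ℤ) = 0 % (pr k : ℤ)) =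
        (Ico M (M + (H : ℤ))).filter (fun D => (pr k : ℤ) ∣ D) := by
      refine filter_congr fun D _ => ?_
      rw [Int.zero_emod]
      exact ⟨Int.dvd_of_emod_eq_zero, Int.emod_eq_zero_of_dvd⟩
    rw [h5] at h4
    have h6 := (abs_le.1 h4).2
    have h7 : (H : ℝ) / pr k ≤ H * (1 / (k + 1)) := by
      rw [div_eq_mul_one_div]
      apply mul_le_mul_of_nonneg_left _ (Nat.cast_nonneg _)
      apply one_div_le_one_div_of_le (by positivity)
      have : k + 1 ≤ pr k := (lt_pr k).le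
      exact_mod_cast this
    linarith
  refine (sum_le_sum h3).trans ?_
  rw [sum_add_distrib, ← mul_sum, sum_const, card_range, nsmul_eq_mul, mul_one]
  have h4 : ∑ k ∈ range K, (1 : ℝ) / (k + 1) ≤ 1 + Real.log K := by
    have h5 := harmonic_le_one_add_log K
    have h6 : ((harmonic K : ℚ) : ℝ) = ∑ k ∈ range K, (1 : ℝ) / (k + 1) := by
      unfold harmonic
      push_cast
      exact sum_congr rfl fun k _ => by rw [one_div]
    rw [h6] at h5
    exact h5
  have h5 : (0 : ℝ) ≤ H := Nat.cast_nonneg _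
  nlinarith

/-- the angles of a twist -/
lemma angle_twist {A B : ℤ} {x : ℕ → ℝ} (hx : IsAngles A B x) {D : ℤ} {X : ℕ → ℝ}
    (hX : IsAngles (A * D ^ 2) (B * D ^ 3) X) {k : ℕ} (hk : ¬ (pr k : ℤ) ∣ 2 * (4 * A ^ 3 + 27 * B ^ 2))
    (hD : ¬ (pr k : ℤ) ∣ D) : (chi k D = 1 ∧ X k = x k) ∨ (chi k D = -1 ∧ X k = 1 - x k) := by
  have hp := pr_prime k
  have hpz := Nat.prime_iff_prime_int.1 hp
  have hk0 : k ≠ 0 := by
    rintro rfl
    apply hk
    have h0 : pr 0 = 2 := Nat.nth_prime_zero_eq_two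
    rw [h0]
    exact Dvd.intro _ rfl
  have hp2 := pr_ne_two hk0
  have hk' : ¬ ((Nat.nth Nat.Prime k : ℕ) : ℤ) ∣ 2 * (4 * (A * D ^ 2) ^ 3 + 27 * (B * D ^ 3) ^ 2) := by
    have e : 2 * (4 * (A * D ^ 2) ^ 3 + 27 * (B * D ^ 3) ^ 2) = 2 * (4 * A ^ 3 + 27 * B ^ 2) * D ^ 6 := by ring
    rw [e]
    intro h
    rcases hpz.dvd_or_dvd h with h | h
    · exact hk h
    · exact hD (hpz.dvd_of_dvd_pow h)
  have e1 := hx k hk
  have e2 := hX k hk'
  have e3 := points_eq hp hp2 A B
  have e4 := points_eq hp hp2 (A * D ^ 2) (B * D ^ 3)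
  rw [ap_twist _ _ _ hp hp2] at e4
  have e5 : ((Nat.nth Nat.Prime k : ℕ) : ℝ) - (points (Nat.nth Nat.Prime k) A B : ℝ) = (ap A B (pr k) : ℝ) := by
    rw [← e3]; push_cast; rfl
  have e6 : ((Nat.nth Nat.Prime k : ℕ) : ℝ) - (points (Nat.nth Nat.Prime k) (A * D ^ 2) (B * D ^ 3) : ℝ) =
      (jacobiSym D (pr k) : ℝ) * (ap A B (pr k) : ℝ) := by
    have : (((jacobiSym D (pr k) * ap A B (pr k) : ℤ)) : ℝ) = (jacobiSym D (pr k) : ℝ) * (ap A B (pr k) : ℝ) := by push_cast; rfl
    rw [← this, ← e4]; push_cast; rfl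
  rw [e5] at e1
  rw [e6] at e2
  have hchi : chi k D = (jacobiSym D (pr k) : ℝ) := by unfold chi; rw [if_neg hk0]
  rcases jacobiSym.trichotomy D (pr k) with h | h | h
  · exfalso
    have : NeZero (pr k) := ⟨hp.ne_zero⟩
    rw [jacobiSym.eq_zero_iff_not_coprime] at h
    apply h
    exact Int.isCoprime_iff_gcd_eq_one.1 (hpz.coprime_iff_not_dvd.2 hD).symm
  · left
    rw [hchi, h]
    refine ⟨by norm_num, ?_⟩
    rw [e2, h, e1]
    norm_num
  · right
    rw [hchi, h]
    refine ⟨by norm_num, ?_⟩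
    rw [e2, h, e1]
    have : ((-1 : ℤ) : ℝ) * (ap A B (pr k) : ℝ) / (2 * √((Nat.nth Nat.Prime k : ℕ) : ℝ)) =
        -((ap A B (pr k) : ℝ) / (2 * √((Nat.nth Nat.Prime k : ℕ) : ℝ))) := by push_cast; ring
    rw [this, Real.arccos_neg, sub_div, div_self Real.pi_ne_zero]

/-- the coefficients -/
def cof (A B : ℤ) (x : ℕ → ℝ) (φ : ℝ → ℝ) (v : ℝ) (k : ℕ) : ℝ :=
  if (pr k : ℤ) ∣ 2 * (4 * A ^ 3 + 27 * B ^ 2) then 0 else (φ (x k) - φ (1 - x k)) / 2 / v

lemma cof_zero (A B : ℤ) (x : ℕ → ℝ) (φ : ℝ → ℝ) (v : ℝ) : cof A B x φ v 0 = 0 := by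
  unfold cof
  rw [if_pos]
  have h0 : pr 0 = 2 := Nat.nth_prime_zero_eq_two
  rw [h0]
  exact Dvd.intro _ rfl

/-- the sums over the angles are sums of characters -/
lemma approx {A B : ℤ} {x : ℕ → ℝ} (hx : IsAngles A B x) {D : ℤ} {X : ℕ → ℝ} (hX : IsAngles (A * D ^ 2) (B * D ^ 3) X)
    (φ : ℝ → ℝ) (hφ : ∀ y, |φ y| ≤ 1) (K : ℕ) (v : ℝ) (hv : 0 < v) :
    |∑ k ∈ range K, φ (X k) - ∑ k ∈ range K, (φ (x k) + φ (1 - x k)) / 2 - v * SS (cof A B x φ v) K D| ≤
      2 * (bad A B K + om K D) := by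
  classical
  have h1 : ∑ k ∈ range K, φ (X k) - ∑ k ∈ range K, (φ (x k) + φ (1 - x k)) / 2 - v * SS (cof A B x φ v) K D =
      ∑ k ∈ range K, (φ (X k) - (φ (x k) + φ (1 - x k)) / 2 - v * (cof A B x φ v k * chi k D)) := by
    unfold SS
    rw [mul_sum, ← sum_sub_distrib, ← sum_sub_distrib]
  rw [h1]
  refine (abs_sum_le_sum_abs _ _).trans ?_
  have h2 : ∀ k ∈ range K, |φ (X k) - (φ (x k) + φ (1 - x k)) / 2 - v * (cof A B x φ v k * chi k D)| ≤
      2 * ((if (pr k : ℤ) ∣ 2 * (4 * A ^ 3 + 27 * B ^ 2) then 1 else 0) + (if (pr k : ℤ) ∣ D then 1 else 0)) := by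
    intro k _
    have a1 := abs_le.1 (hφ (X k))
    have a2 := abs_le.1 (hφ (x k))
    have a3 := abs_le.1 (hφ (1 - x k))
    by_cases hk : (pr k : ℤ) ∣ 2 * (4 * A ^ 3 + 27 * B ^ 2)
    · have h3 : cof A B x φ v k = 0 := by unfold cof; rw [if_pos hk]
      rw [h3, if_pos hk, zero_mul, mul_zero, sub_zero]
      have h4 : (0 : ℝ) ≤ if (pr k : ℤ) ∣ D then 1 else 0 := by split_ifs <;> norm_num
      rw [abs_le]
      constructor <;> linarith
    · have h3 : cof A B x φ v k = (φ (x k) - φ (1 - x k)) / 2 / v := by unfold cof; rw [if_neg hk]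
      rw [if_neg hk]
      by_cases hD : (pr k : ℤ) ∣ D
      · rw [if_pos hD]
        have h4 : chi k D = 0 := by
          unfold chi
          split_ifs
          · rfl
          · have hp := pr_prime k
            have : NeZero (pr k) := ⟨hp.ne_zero⟩
            have h5 : jacobiSym D (pr k) = 0 := by
              rw [jacobiSym.eq_zero_iff_not_coprime]
              intro h6
              have h7 : (pr k : ℤ) ∣ ((Int.gcd D (pr k : ℤ) : ℕ) : ℤ) := Int.dvd_coe_gcd hD dvd_rfl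
              rw [h6] at h7
              have h8 := Int.le_of_dvd (by norm_num) h7
              have h9 := hp.two_le
              omega
            rw [h5]; simp
        rw [h4, mul_zero, mul_zero, sub_zero]
        rw [abs_le]
        constructor <;> linarith
      · rw [if_neg hD, h3]
        have h5 : v * ((φ (x k) - φ (1 - x k)) / 2 / v * chi k D) = (φ (x k) - φ (1 - x k)) / 2 * chi k D := by
          field_simp
        rw [h5]
        rcases angle_twist hx hX hk hD with ⟨h6, h7⟩ | ⟨h6, h7⟩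
        · rw [h6, h7]
          have : φ (x k) - (φ (x k) + φ (1 - x k)) / 2 - (φ (x k) - φ (1 - x k)) / 2 * 1 = 0 := by ring
          rw [this]; simp
        · rw [h6, h7]
          have : φ (1 - x k) - (φ (x k) + φ (1 - x k)) / 2 - (φ (x k) - φ (1 - x k)) / 2 * (-1) = 0 := by ring
          rw [this]; simp
  refine (sum_le_sum h2).trans ?_
  rw [← mul_sum, sum_add_distrib, sum_boole, sum_boole]
  rfl

end

end Pool.Agent.J4.H33.GL
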