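import Mathlib
import Pool.Agent.J4.H33.GL.Curve

set_option autoImplicit false

/-! # The choice of the parameters -/

namespace Pool.Agent.J4.H33.GL

open Finset Filter Pool.Agent.J4.H33.LIL Pool.Agent.W406.TW

noncomputable section

/-- `1 + log |4 A³ + 27 B²|` -/
def ell (A B : ℤ) : ℝ := 1 + Real.log |((4 * A ^ 3 + 27 * B ^ 2 : ℤ) : ℝ)|

lemma ell_ge {A B : ℤ} (h : 4 * A ^ 3 + 27 * B ^ 2 ≠ 0) : 1 ≤ ell A B := by
  unfold ell
  have h1 : (1 : ℝ) ≤ |((4 * A ^ 3 + 27 * B ^ 2 : ℤ) : ℝ)| := by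
    have := Int.one_le_abs h
    exact_mod_cast this
  have := Real.log_nonneg h1
  linarith

lemma bad_le {A B : ℤ} (h : 4 * A ^ 3 + 27 * B ^ 2 ≠ 0) (K : ℕ) : (bad A B K : ℝ) ≤ 2 * ell A B := by
  have h0 : 2 * (4 * A ^ 3 + 27 * B ^ 2) ≠ 0 := by
    intro h1; apply h; linarith
  have h1 := card_div (2 * (4 * A ^ 3 + 27 * B ^ 2)) h0 K
  have h2 : Real.log |((2 * (4 * A ^ 3 + 27 * B ^ 2) : ℤ) : ℝ)| = Real.log 2 + Real.log |((4 * A ^ 3 + 27 * B ^ 2 : ℤ) : ℝ)| := by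
    have e : ((2 * (4 * A ^ 3 + 27 * B ^ 2) : ℤ) : ℝ) = 2 * ((4 * A ^ 3 + 27 * B ^ 2 : ℤ) : ℝ) := by push_cast; ring
    rw [e, abs_mul, Real.log_mul (by norm_num)]
    · norm_num
    · rw [abs_ne_zero]
      exact_mod_cast h
  rw [h2] at h1
  have h3 := Real.log_two_gt_d9
  have h4 := Real.log_two_lt_d9
  have h5 := ell_ge h
  have h6 : (((range K).filter (fun k => (pr k : ℤ) ∣ 2 * (4 * A ^ 3 + 27 * B ^ 2))).card : ℝ) = (bad A B K : ℝ) := rfl
  rw [h6] at h1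
  have h7 : (0 : ℝ) ≤ (bad A B K : ℝ) := Nat.cast_nonneg _
  have h8 : Real.log |((4 * A ^ 3 + 27 * B ^ 2 : ℤ) : ℝ)| = ell A B - 1 := by unfold ell; ring
  rw [h8] at h1
  nlinarith

/-- the coefficients are small -/
lemma cof_sq_le {A B : ℤ} {x : ℕ → ℝ} {φ : ℝ → ℝ} (hφ : ∀ y, |φ y| ≤ 1) {V : ℝ} (hV : 0 < V) (k : ℕ) :
    cof A B x φ (√V) k ^ 2 ≤ 1 / V := by
  unfold cof
  split_ifs
  · rw [zero_pow (by norm_num)]; positivity
  · rw [div_pow, Real.sq_sqrt hV.le]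
    apply div_le_div_of_nonneg_right _ hV.le
    have a2 := abs_le.1 (hφ (x k))
    have a3 := abs_le.1 (hφ (1 - x k))
    rw [div_pow, div_le_one (by norm_num)]
    nlinarith

lemma cof_sum {A B : ℤ} {x : ℕ → ℝ} {φ : ℝ → ℝ} (hφ : ∀ y, |φ y| ≤ 1) {V : ℝ} (hV : 0 < V) (K : ℕ)
    (hVe : V = ∑ k ∈ range K, ((φ (x k) - φ (1 - x k)) / 2) ^ 2) :
    ∑ k ∈ range K, cof A B x φ (√V) k ^ 2 ≤ 1 ∧ 1 - bad A B K / V ≤ ∑ k ∈ range K, cof A B x φ (√V) k ^ 2 := by
  classical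
  have h1 : ∀ k, cof A B x φ (√V) k ^ 2 =
      (((φ (x k) - φ (1 - x k)) / 2) ^ 2 - (if (pr k : ℤ) ∣ 2 * (4 * A ^ 3 + 27 * B ^ 2) then
        ((φ (x k) - φ (1 - x k)) / 2) ^ 2 else 0)) / V := by
    intro k
    unfold cof
    split_ifs
    · simp
    · rw [div_pow, Real.sq_sqrt hV.le, sub_zero]
  have h2 : ∑ k ∈ range K, cof A B x φ (√V) k ^ 2 =
      1 - (∑ k ∈ (range K).filter (fun k => (pr k : ℤ) ∣ 2 * (4 * A ^ 3 + 27 * B ^ 2)), ((φ (x k) - φ (1 - x k)) / 2) ^ 2) / V := by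
    rw [sum_congr rfl fun k _ => h1 k, ← sum_div, sum_sub_distrib, ← hVe, ← sum_filter, sub_div, div_self hV.ne']
  rw [h2]
  constructor
  · have : 0 ≤ (∑ k ∈ (range K).filter (fun k => (pr k : ℤ) ∣ 2 * (4 * A ^ 3 + 27 * B ^ 2)), ((φ (x k) - φ (1 - x k)) / 2) ^ 2) / V :=
      div_nonneg (sum_nonneg fun _ _ => sq_nonneg _) hV.le
    linarith
  · have h3 : ∑ k ∈ (range K).filter (fun k => (pr k : ℤ) ∣ 2 * (4 * A ^ 3 + 27 * B ^ 2)), ((φ (x k) - φ (1 - x k)) / 2) ^ 2 ≤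
        (bad A B K : ℝ) := by
      have h4 : (bad A B K : ℝ) = ∑ k ∈ (range K).filter (fun k => (pr k : ℤ) ∣ 2 * (4 * A ^ 3 + 27 * B ^ 2)), (1 : ℝ) := by
        rw [sum_const, nsmul_eq_mul, mul_one]; rfl
      rw [h4]
      apply sum_le_sum
      intro k _
      have a2 := abs_le.1 (hφ (x k))
      have a3 := abs_le.1 (hφ (1 - x k))
      rw [div_pow, div_le_one (by norm_num)]
      nlinarith
    have := div_le_div_of_nonneg_right h3 hV.le
    linarith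

open Classical in
theorem prep (ε η : ℝ) (hε : 0 < ε) (hη : 0 < η) : ∃ C : ℝ, 1 ≤ C ∧ ∀ A B : ℤ, 4 * A ^ 3 + 27 * B ^ 2 ≠ 0 →
    ∀ (K H : ℕ) (M : ℤ), C * ell A B ^ 2 ≤ K → (K : ℝ) ^ C ≤ H →
    0 < K ∧ 0 < H ∧ (∃ E : Finset ℤ, (E.card : ℝ) ≤ ε * H ∧ E ⊆ Ico M (M + H) ∧
      ∀ D ∈ Ico M (M + (H : ℤ)), D ∉ E → 2 * ((bad A B K : ℝ) + om K D) ≤ ε * √(η * K)) ∧
    ∀ x : ℕ → ℝ, ∀ φ : ℝ → ℝ, (∀ y, |φ y| ≤ 1) → ∀ V : ℝ,
      V = ∑ k ∈ range K, ((φ (x k) - φ (1 - x k)) / 2) ^ 2 → η * K ≤ V → ∀ t : ℝ,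
      |(((Ico M (M + H)).filter (fun D => SS (cof A B x φ (√V)) K D ≤ t)).card : ℝ) / H - Phi t| ≤ ε := by
  obtain ⟨δ, r, hδ, hcore⟩ := core ε hε
  have hev : ∀ᶠ K : ℕ in atTop, 6 ≤ K ∧ 1 / (η * δ) ≤ K ∧ 36 ^ r / δ ≤ K ∧ 2 + Real.log K ≤ ε * (ε * √(η * K) / 4) := by
    refine (eventually_ge_atTop 6).and (((tendsto_natCast_atTop_atTop (R := ℝ)).eventually_ge_atTop _).and
      (((tendsto_natCast_atTop_atTop (R := ℝ)).eventually_ge_atTop _).and ?_))
    have h1 : (fun y : ℝ => 2 + Real.log y) =o[atTop] (fun y : ℝ => y ^ (1 / 2 : ℝ)) := by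
      refine Asymptotics.IsLittleO.add ?_ (isLittleO_log_rpow_atTop (by norm_num))
      rw [Asymptotics.isLittleO_const_left]
      right
      exact tendsto_norm_atTop_atTop.comp (tendsto_rpow_atTop (by norm_num))
    have h2 := (h1.def (show 0 < ε * (ε * √η / 4) by positivity))
    filter_upwards [(tendsto_natCast_atTop_atTop (R := ℝ)).eventually h2] with K hK
    rw [Real.norm_eq_abs, Real.norm_eq_abs, abs_of_nonneg (by positivity : (0 : ℝ) ≤ (K : ℝ) ^ (1 / 2 : ℝ)),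
      ← Real.sqrt_eq_rpow] at hK
    refine (le_abs_self _).trans (hK.trans (le_of_eq ?_))
    rw [Real.sqrt_mul hη.le]
    ring
  obtain ⟨K₁, hK₁⟩ := eventually_atTop.1 hev
  set C : ℝ := K₁ + (3 * r + 1) + 2 / (δ * η) + 64 / (ε ^ 2 * η) with hC
  have c1 : 0 ≤ 2 / (δ * η) := by positivity
  have c2 : 0 ≤ 64 / (ε ^ 2 * η) := by positivity
  have c3 : (0 : ℝ) ≤ K₁ := Nat.cast_nonneg _
  have c4 : (0 : ℝ) ≤ r := Nat.cast_nonneg _
  have hC1 : 1 ≤ C := by rw [hC]; linarith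
  refine ⟨C, hC1, ?_⟩
  intro A B hAB K H M hK hH
  have hl := ell_ge hAB
  set l := ell A B with hldef
  have hl2 : l ≤ l ^ 2 := by nlinarith
  have hl21 : 1 ≤ l ^ 2 := by nlinarith
  have hKC : C ≤ K := le_trans (by nlinarith) hK
  have hKK₁ : K₁ ≤ K := by
    have : (K₁ : ℝ) ≤ K := by rw [hC] at hKC; linarith
    exact_mod_cast this
  obtain ⟨h6, hKd, hKr, hKl⟩ := hK₁ K hKK₁
  have hK6 : (6 : ℝ) ≤ K := by exact_mod_cast h6
  have hK0 : (0 : ℝ) < K := by linarith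
  have hHK : (K : ℝ) ≤ H := by
    refine le_trans ?_ hH
    calc (K : ℝ) = (K : ℝ) ^ (1 : ℝ) := (Real.rpow_one _).symm
      _ ≤ (K : ℝ) ^ C := Real.rpow_le_rpow_of_exponent_le (by linarith) hC1
  have hH0 : (0 : ℝ) < H := by linarith
  have hHn : 0 < H := by exact_mod_cast hH0
  have hKn : 0 < K := by omega
  have hηK : 0 < η * K := by positivity
  have hbad := bad_le hAB K
  rw [← hldef] at hbad
  refine ⟨hKn, hHn, ?_, ?_⟩
  · -- the exceptional set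
    set τ : ℝ := ε * √(η * K) / 4 with hτ
    have hτ0 : 0 < τ := by rw [hτ]; have := Real.sqrt_pos.2 hηK; positivity
    refine ⟨(Ico M (M + H)).filter (fun D => τ < om K D), ?_, filter_subset _ _, ?_⟩
    · refine (few_om K M H hτ0).trans ?_
      rw [div_le_iff₀ hτ0]
      calc (H : ℝ) * (1 + Real.log K) + K ≤ H * (2 + Real.log K) := by linarith
        _ ≤ H * (ε * τ) := mul_le_mul_of_nonneg_left hKl hH0.le
        _ = ε * H * τ := by ring
    · intro D hD hDE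
      have h1 : (om K D : ℝ) ≤ τ := by
        by_contra hcon
        push Not at hcon
        exact hDE (mem_filter.2 ⟨hD, hcon⟩)
      have h2 : 4 * l ≤ ε * √(η * K) / 2 := by
        have h3 : 64 / (ε ^ 2 * η) * l ^ 2 ≤ K := le_trans (by
          apply mul_le_mul_of_nonneg_right _ (by positivity)
          rw [hC]; linarith) hK
        have h4 : 64 * l ^ 2 ≤ ε ^ 2 * (η * K) := by
          have h5 : 64 / (ε ^ 2 * η) * l ^ 2 * (ε ^ 2 * η) ≤ K * (ε ^ 2 * η) := mul_le_mul_of_nonneg_right h3 (by positivity)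
          have h6 : 64 / (ε ^ 2 * η) * l ^ 2 * (ε ^ 2 * η) = 64 * l ^ 2 := by field_simp
          linarith
        have h5 : 8 * l ≤ ε * √(η * K) := by
          have h6 : (8 * l) ^ 2 ≤ (ε * √(η * K)) ^ 2 := by
            rw [mul_pow ε, Real.sq_sqrt hηK.le]
            linarith
          exact (pow_le_pow_iff_left₀ (by positivity) (by positivity) (by norm_num)).1 h6
        linarith
      have h3 : ε * √(η * K) = 4 * τ := by rw [hτ]; ring
      linarith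
  · intro x φ hφ V hVe hV t
    have hV0 : 0 < V := lt_of_lt_of_le hηK hV
    have hX : ∀ k < K, pr k ≤ 36 * K ^ 2 := by
      intro k hk
      have h1 := pr_le h6
      have h2 : pr k ≤ pr K := (Nat.nth_strictMono Nat.infinite_setOfPred_prime).monotone hk.le
      have h3 : pr K ≤ 36 * K ^ 2 := by exact_mod_cast h1
      exact h2.trans h3
    have hs := cof_sum (A := A) (B := B) hφ hV0 K hVe
    apply hcore K (36 * K ^ 2) H M (cof A B x φ (√V)) hX (Nat.mul_pos (by norm_num) (by positivity)) (cof_zero _ _ _ _ _) ?_ hs.1 ?_ hHn ?_ t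
    · intro k _
      refine (cof_sq_le hφ hV0 k).trans ?_
      have h1 : 1 / V ≤ 1 / (η * K) := one_div_le_one_div_of_le hηK hV
      refine h1.trans ?_
      rw [div_le_iff₀ (by positivity)] at hKd
      rw [div_le_iff₀ hηK]
      linarith
    · refine le_trans ?_ hs.2
      have h1 : (bad A B K : ℝ) / V ≤ δ := by
        rw [div_le_iff₀ hV0]
        have h2 : 2 / (δ * η) * l ^ 2 ≤ K := le_trans (by
          apply mul_le_mul_of_nonneg_right _ (by positivity)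
          rw [hC]; linarith) hK
        have h3 : 2 * l ^ 2 ≤ δ * (η * K) := by
          have h5 : 2 / (δ * η) * l ^ 2 * (δ * η) ≤ K * (δ * η) := mul_le_mul_of_nonneg_right h2 (by positivity)
          have h6 : 2 / (δ * η) * l ^ 2 * (δ * η) = 2 * l ^ 2 := by field_simp
          linarith
        have h4 : δ * (η * K) ≤ δ * V := mul_le_mul_of_nonneg_left hV hδ.le
        linarith
      linarith
    · have h1 : ((K : ℝ) * ((36 * K ^ 2 : ℕ) : ℝ)) ^ r = 36 ^ r * (K : ℝ) ^ (3 * r) := by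
        push_cast
        rw [pow_mul, ← mul_pow]
        congr 1
        ring
      rw [h1]
      rw [div_le_iff₀ hδ] at hKr
      have h2 : (K : ℝ) ^ (3 * r + 1) ≤ H := by
        refine le_trans ?_ hH
        rw [← Real.rpow_natCast]
        apply Real.rpow_le_rpow_of_exponent_le (by linarith)
        rw [hC]; push_cast; linarith
      calc (36 : ℝ) ^ r * (K : ℝ) ^ (3 * r) ≤ (K * δ) * (K : ℝ) ^ (3 * r) :=
            mul_le_mul_of_nonneg_right hKr (by positivity)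
        _ = δ * (K : ℝ) ^ (3 * r + 1) := by rw [pow_succ]; ring
        _ ≤ δ * H := mul_le_mul_of_nonneg_left h2 hδ.le

end

end Pool.Agent.J4.H33.GL
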