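import Mathlib
import Pool.Agent.J4.H33.GL.Prep

set_option autoImplicit false

/-! # The normal law for the Frobenius angles of the quadratic twists -/

namespace Pool.Agent.J4.H33.GL

open Finset Filter Pool.Agent.J4.H33.LIL Pool.Agent.W406.TW

noncomputable section

open Classical in
theorem normal_law (ε η : ℝ) (hε : 0 < ε) (hη : 0 < η) : ∃ C : ℝ, ∀ A B : ℤ, 4 * A ^ 3 + 27 * B ^ 2 ≠ 0 →
    ∀ x : ℕ → ℝ, IsAngles A B x → ∀ X : ℤ → ℕ → ℝ, (∀ D, IsAngles (A * D ^ 2) (B * D ^ 3) (X D)) →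
    ∀ (K H : ℕ) (M : ℤ), C * ell A B ^ 2 ≤ K → (K : ℝ) ^ C ≤ H →
    ∀ φ : ℝ → ℝ, (∀ y, |φ y| ≤ 1) → ∀ V : ℝ, V = ∑ k ∈ range K, ((φ (x k) - φ (1 - x k)) / 2) ^ 2 → η * K ≤ V → ∀ t : ℝ,
      |(((Ico M (M + H)).filter (fun D => ∑ k ∈ range K, φ (X D k) ≤
        ∑ k ∈ range K, (φ (x k) + φ (1 - x k)) / 2 + t * √V)).card : ℝ) / H - Phi t| ≤ ε := by
  obtain ⟨C, hC1, hC⟩ := prep (ε / 3) η (by positivity) hη
  refine ⟨C, ?_⟩
  intro A B hAB x hx X hX K H M hK hH φ hφ V hVe hV t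
  obtain ⟨hK0, hH0, ⟨E, hE1, hE2, hE3⟩, hn⟩ := hC A B hAB K H M hK hH
  have hK0' : (0 : ℝ) < K := by exact_mod_cast hK0
  have hH0' : (0 : ℝ) < H := by exact_mod_cast hH0
  have hV0 : 0 < V := lt_of_lt_of_le (by positivity) hV
  have hv : 0 < √V := Real.sqrt_pos.2 hV0
  have hvK : √(η * K) ≤ √V := Real.sqrt_le_sqrt hV
  have hkey : ∀ D ∈ Ico M (M + (H : ℤ)), D ∉ E →
      |∑ k ∈ range K, φ (X D k) - ∑ k ∈ range K, (φ (x k) + φ (1 - x k)) / 2 - √V * SS (cof A B x φ (√V)) K D| ≤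
        ε / 3 * √V := by
    intro D hD hDE
    refine (approx hx (hX D) φ hφ K (√V) hv).trans ((hE3 D hD hDE).trans ?_)
    exact mul_le_mul_of_nonneg_left hvK (by positivity)
  have h1 := (abs_le.1 (hn x φ hφ V hVe hV (t + ε / 3))).2
  have h2 := (abs_le.1 (hn x φ hφ V hVe hV (t - ε / 3))).1
  have l1 := Phi_lip (s := t) (t := t + ε / 3) (by linarith)
  have l2 := Phi_lip (s := t - ε / 3) (t := t) (by linarith)
  set S := SS (cof A B x φ (√V)) K with hS
  set Q := (Ico M (M + (H : ℤ))).filter (fun D => ∑ k ∈ range K, φ (X D k) ≤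
        ∑ k ∈ range K, (φ (x k) + φ (1 - x k)) / 2 + t * √V) with hQ
  have s1 : Q ⊆ (Ico M (M + (H : ℤ))).filter (fun D => S D ≤ t + ε / 3) ∪ E := by
    intro D hD
    obtain ⟨hD1, hD2⟩ := mem_filter.1 hD
    by_cases hDE : D ∈ E
    · exact mem_union_right _ hDE
    · refine mem_union_left _ (mem_filter.2 ⟨hD1, ?_⟩)
      have h3 := abs_le.1 (hkey D hD1 hDE)
      have h4 : √V * S D ≤ √V * (t + ε / 3) := by linarith [h3.1]
      exact le_of_mul_le_mul_left h4 hv
  have s2 : (Ico M (M + (H : ℤ))).filter (fun D => S D ≤ t - ε / 3) ⊆ Q ∪ E := by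
    intro D hD
    obtain ⟨hD1, hD2⟩ := mem_filter.1 hD
    by_cases hDE : D ∈ E
    · exact mem_union_right _ hDE
    · refine mem_union_left _ (mem_filter.2 ⟨hD1, ?_⟩)
      have h3 := abs_le.1 (hkey D hD1 hDE)
      have h4 : √V * S D ≤ √V * (t - ε / 3) := mul_le_mul_of_nonneg_left hD2 hv.le
      linarith [h3.2]
  have t1 : (Q.card : ℝ) ≤ ((Ico M (M + (H : ℤ))).filter (fun D => S D ≤ t + ε / 3)).card + E.card := by
    exact_mod_cast (card_le_card s1).trans (card_union_le _ _)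
  have t2 : (((Ico M (M + (H : ℤ))).filter (fun D => S D ≤ t - ε / 3)).card : ℝ) ≤ Q.card + E.card := by
    exact_mod_cast (card_le_card s2).trans (card_union_le _ _)
  have u1 : (Q.card : ℝ) / H ≤ (((Ico M (M + (H : ℤ))).filter (fun D => S D ≤ t + ε / 3)).card : ℝ) / H + ε / 3 := by
    rw [div_add' _ _ _ hH0'.ne', div_le_div_iff_of_pos_right hH0']
    linarith
  have u2 : (((Ico M (M + (H : ℤ))).filter (fun D => S D ≤ t - ε / 3)).card : ℝ) / H ≤ (Q.card : ℝ) / H + ε / 3 := by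
    rw [div_add' _ _ _ hH0'.ne', div_le_div_iff_of_pos_right hH0']
    linarith
  rw [abs_le]
  constructor <;> linarith

/-! ### The discrepancy -/

/-- the sign of `1/2 - y` -/
def sgn (y : ℝ) : ℝ := if y < 1 / 2 then 1 else if y = 1 / 2 then 0 else -1

lemma sgn_abs (y : ℝ) : |sgn y| ≤ 1 := by
  unfold sgn; split_ifs <;> simp

lemma sgn_refl (y : ℝ) : sgn (1 - y) = - sgn y := by
  unfold sgn
  rcases lt_trichotomy y (1 / 2) with h | h | h
  · have h1 : ¬ (1 - y < 1 / 2) := by intro h'; linarith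
    have h2 : ¬ (1 - y = 1 / 2) := by intro h'; linarith
    simp only [h, h1, h2, if_true, if_false]
  · subst h; norm_num
  · have h1 : ¬ (y < 1 / 2) := by intro h'; linarith
    have h2 : ¬ (y = 1 / 2) := by intro h'; linarith
    have h3 : 1 - y < 1 / 2 := by linarith
    simp only [h1, h2, h3, if_true, if_false]
    norm_num

lemma st_half_add {τ : ℝ} (hτ : 0 ≤ τ) : ∫ t in (0 : ℝ)..(1 / 2 + τ), 2 * Real.sin (Real.pi * t) ^ 2 ≤ 1 / 2 + 2 * τ := by
  rw [st_int, show 2 * Real.pi * (1 / 2 + τ) = 2 * Real.pi * τ + Real.pi by ring, Real.sin_add_pi]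
  have h1 : Real.sin (2 * Real.pi * τ) ≤ 2 * Real.pi * τ := Real.sin_le (by positivity)
  have h2 : (2 * Real.pi)⁻¹ * Real.sin (2 * Real.pi * τ) ≤ τ := by
    rw [inv_mul_le_iff₀ (by positivity)]
    exact h1
  linarith

open Classical in
/-- the discrepancy from above at `1/2` -/
lemma starDisc_ge' (x : ℕ → ℝ) (hx : ∀ k, 0 ≤ x k ∧ x k < 1) (s K : ℕ) (hs : 1 ≤ s) :
    (((range K).filter (fun k => x k ≤ 1 / 2)).card : ℝ) / K - 1 / 2 ≤ starDisc x s K := by
  apply le_of_forall_pos_le_add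
  intro ρ hρ
  set τ : ℝ := min (ρ / 2) (1 / 2) with hτ
  have hτ0 : 0 < τ := by rw [hτ]; positivity
  have hτ1 : τ ≤ 1 / 2 := min_le_right _ _
  have hτ2 : 2 * τ ≤ ρ := by have : τ ≤ ρ / 2 := min_le_left _ _; linarith
  let i₀ : Fin s := ⟨0, hs⟩
  let w : Fin s → ℝ := fun i => if i = i₀ then 1 / 2 + τ else 1
  have hw : ∀ i, 0 ≤ w i ∧ w i ≤ 1 := by
    intro i
    simp only [w]
    split_ifs
    · constructor <;> linarith
    · norm_num
  have hprod : ∏ i, ∫ t in (0 : ℝ)..(w i), 2 * Real.sin (Real.pi * t) ^ 2 ≤ 1 / 2 + 2 * τ := by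
    rw [← Finset.mul_prod_erase univ _ (mem_univ i₀)]
    have h1 : ∏ i ∈ univ.erase i₀, ∫ t in (0 : ℝ)..(w i), 2 * Real.sin (Real.pi * t) ^ 2 = 1 := by
      apply prod_eq_one
      intro i hi
      have : i ≠ i₀ := (mem_erase.1 hi).1
      simp only [w, this, if_false]
      exact st_one
    rw [h1, mul_one]
    simp only [w, if_true]
    exact st_half_add hτ0.le
  have h1 : |(((range K).filter (fun k => ∀ i : Fin s, 0 ≤ x (k + i) ∧ x (k + i) < w i)).card : ℝ) / K -
      ∏ i, ∫ t in (0 : ℝ)..(w i), 2 * Real.sin (Real.pi * t) ^ 2| ≤ starDisc x s K := by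
    apply le_csSup
    · refine ⟨1, ?_⟩
      rintro d ⟨v, hv, rfl⟩
      have h2 : (0 : ℝ) ≤ (((range K).filter (fun k => ∀ i : Fin s, 0 ≤ x (k + i) ∧ x (k + i) < v i)).card : ℝ) / K := by
        positivity
      have h3 : (((range K).filter (fun k => ∀ i : Fin s, 0 ≤ x (k + i) ∧ x (k + i) < v i)).card : ℝ) / K ≤ 1 := by
        apply div_le_one_of_le₀ _ (by positivity)
        have := card_filter_le (range K) (fun k => ∀ i : Fin s, 0 ≤ x (k + i) ∧ x (k + i) < v i)
        rw [card_range] at this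
        exact_mod_cast this
      have h4 : 0 ≤ ∏ i, ∫ t in (0 : ℝ)..(v i), 2 * Real.sin (Real.pi * t) ^ 2 :=
        prod_nonneg fun i _ => (st_mem (hv i).1 (hv i).2).1
      have h5 : ∏ i, ∫ t in (0 : ℝ)..(v i), 2 * Real.sin (Real.pi * t) ^ 2 ≤ 1 :=
        prod_le_one (fun i _ => (st_mem (hv i).1 (hv i).2).1) fun i _ => (st_mem (hv i).1 (hv i).2).2
      rw [abs_le]
      constructor <;> linarith
    · exact ⟨w, hw, rfl⟩
  have h2 : ((range K).filter (fun k => x k ≤ 1 / 2)).card ≤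
      ((range K).filter (fun k => ∀ i : Fin s, 0 ≤ x (k + i) ∧ x (k + i) < w i)).card := by
    apply card_le_card
    intro k hk
    have hk' := mem_filter.1 hk
    refine mem_filter.2 ⟨hk'.1, fun i => ⟨(hx _).1, ?_⟩⟩
    simp only [w]
    split_ifs with h
    · subst h
      have h3 : x k ≤ 1 / 2 := hk'.2
      show x (k + 0) < _
      rw [add_zero]
      linarith
    · exact (hx _).2
  have h3 : (((range K).filter (fun k => x k ≤ 1 / 2)).card : ℝ) / K ≤
      (((range K).filter (fun k => ∀ i : Fin s, 0 ≤ x (k + i) ∧ x (k + i) < w i)).card : ℝ) / K := by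
    apply div_le_div_of_nonneg_right _ (by positivity)
    exact_mod_cast h2
  have h4 := le_abs_self ((((range K).filter (fun k => ∀ i : Fin s, 0 ≤ x (k + i) ∧ x (k + i) < w i)).card : ℝ) / K -
      ∏ i, ∫ t in (0 : ℝ)..(w i), 2 * Real.sin (Real.pi * t) ^ 2)
  linarith

open Classical in
/-- the discrepancy and the signs -/
lemma starDisc_sgn (x : ℕ → ℝ) (hx : ∀ k, 0 ≤ x k ∧ x k < 1) (s K : ℕ) (hs : 1 ≤ s) (hK : 0 < K) :
    (|∑ k ∈ range K, sgn (x k)| + (((range K).filter (fun k => x k = 1 / 2)).card : ℝ)) / (2 * K) ≤ starDisc x s K := by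
  have hK0 : (0 : ℝ) < K := by exact_mod_cast hK
  have h1 := starDisc_ge x s K hs
  have h2 := starDisc_ge' x hx s K hs
  have e1 : ((K : ℕ) : ℝ) = ∑ k ∈ range K, (1 : ℝ) := by simp
  have e2 : (((range K).filter (fun k => x k < 1 / 2)).card : ℝ) = ∑ k ∈ range K, if x k < 1 / 2 then (1 : ℝ) else 0 := by
    rw [sum_boole]
  have e3 : (((range K).filter (fun k => x k ≤ 1 / 2)).card : ℝ) = ∑ k ∈ range K, if x k ≤ 1 / 2 then (1 : ℝ) else 0 := by
    rw [sum_boole]
  have e4 : (((range K).filter (fun k => x k = 1 / 2)).card : ℝ) = ∑ k ∈ range K, if x k = 1 / 2 then (1 : ℝ) else 0 := by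
    rw [sum_boole]
  have f1 : (K : ℝ) - 2 * ((range K).filter (fun k => x k < 1 / 2)).card =
      ((range K).filter (fun k => x k = 1 / 2)).card - ∑ k ∈ range K, sgn (x k) := by
    rw [e2, e4, e1, mul_sum, ← sum_sub_distrib, ← sum_sub_distrib]
    refine sum_congr rfl fun k _ => ?_
    unfold sgn
    rcases lt_trichotomy (x k) (1 / 2) with h | h | h
    · have h2 : ¬ (x k = 1 / 2) := by intro h'; linarith
      simp only [h, h2, if_true, if_false]; norm_num
    · simp only [h]; norm_num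
    · have h1 : ¬ (x k < 1 / 2) := by intro h'; linarith
      have h2 : ¬ (x k = 1 / 2) := by intro h'; linarith
      simp only [h1, h2, if_false]; norm_num
  have f2 : 2 * (((range K).filter (fun k => x k ≤ 1 / 2)).card : ℝ) - K =
      ((range K).filter (fun k => x k = 1 / 2)).card + ∑ k ∈ range K, sgn (x k) := by
    rw [e3, e4, e1, mul_sum, ← sum_sub_distrib, ← sum_add_distrib]
    refine sum_congr rfl fun k _ => ?_
    unfold sgn
    rcases lt_trichotomy (x k) (1 / 2) with h | h | h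
    · have h2 : ¬ (x k = 1 / 2) := by intro h'; linarith
      simp only [h, h.le, h2, if_true, if_false]; norm_num
    · simp only [h]; norm_num
    · have h1 : ¬ (x k < 1 / 2) := by intro h'; linarith
      have h2 : ¬ (x k = 1 / 2) := by intro h'; linarith
      have h3 : ¬ (x k ≤ 1 / 2) := by intro h'; linarith
      simp only [h1, h2, h3, if_false]; norm_num
  have g1 : 1 / 2 - (((range K).filter (fun k => x k < 1 / 2)).card : ℝ) / K =
      (((range K).filter (fun k => x k = 1 / 2)).card - ∑ k ∈ range K, sgn (x k)) / (2 * K) := by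
    rw [← f1]; field_simp
  have g2 : (((range K).filter (fun k => x k ≤ 1 / 2)).card : ℝ) / K - 1 / 2 =
      (((range K).filter (fun k => x k = 1 / 2)).card + ∑ k ∈ range K, sgn (x k)) / (2 * K) := by
    have gen : ∀ a : ℝ, a / K - 1 / 2 = (2 * a - K) / (2 * K) := fun a => by field_simp
    rw [gen, f2]
  rw [g1] at h1
  rw [g2] at h2
  rcases abs_cases (∑ k ∈ range K, sgn (x k)) with h | h
  · rw [h.1, add_comm]; exact h2
  · rw [h.1]
    refine le_trans (le_of_eq ?_) h1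
    congr 1; ring

lemma Phi_neg (t : ℝ) : Phi (-t) = 1 - Phi t := by
  unfold Phi
  have h1 : (ProbabilityTheory.gaussianReal 0 1).map (fun x => -x) = ProbabilityTheory.gaussianReal 0 1 := by
    rw [ProbabilityTheory.gaussianReal_map_neg, neg_zero]
  have h2 : (ProbabilityTheory.gaussianReal 0 1).real (Set.Iic (-t)) =
      (ProbabilityTheory.gaussianReal 0 1).real (Set.Ici t) := by
    conv_lhs => rw [← h1]
    rw [MeasureTheory.map_measureReal_apply measurable_neg measurableSet_Iic]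
    congr 1
    ext y
    simp
  rw [h2]
  have h3 : (ProbabilityTheory.gaussianReal 0 1).real (Set.Ici t) =
      (ProbabilityTheory.gaussianReal 0 1).real (Set.Ioi t) := by
    have := ProbabilityTheory.nullSingletonClass_gaussianReal (μ := 0) (v := 1) (by norm_num)
    rw [MeasureTheory.measureReal_congr MeasureTheory.Ioi_ae_eq_Ici.symm]
  rw [h3, ← Set.compl_Iic, MeasureTheory.probReal_compl_eq_one_sub measurableSet_Iic]

open Classical in
theorem disc_law (ε u : ℝ) (hε : 0 < ε) (hu : 0 ≤ u) : ∃ C : ℝ, ∀ A B : ℤ, 4 * A ^ 3 + 27 * B ^ 2 ≠ 0 →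
    ∀ (K H : ℕ) (M : ℤ), C * ell A B ^ 2 ≤ K → (K : ℝ) ^ C ≤ H →
      (2 * Phi (-(2 * u)) - ε) * H ≤ (((Ico M (M + H)).filter (fun D => ∀ X : ℕ → ℝ, IsAngles (A * D ^ 2) (B * D ^ 3) X →
        (∀ k, 0 ≤ X k ∧ X k < 1) → ∀ s : ℕ, 1 ≤ s → u ≤ √K * starDisc X s K)).card : ℝ) := by
  set ε' : ℝ := ε / 9 with hε'
  have hε'0 : 0 < ε' := by positivity
  obtain ⟨C₀, hC1, hC⟩ := prep ε' (1 / 2) hε'0 (by norm_num)
  set G : ℝ := (2 * u + 3 * ε') ^ 2 * (2 * u + ε') / (8 * ε' * (u + ε')) with hG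
  have hG0 : 0 ≤ G := by rw [hG]; positivity
  set C : ℝ := C₀ + G ^ 2 + 4 * (2 * u + ε') ^ 2 with hCdef
  refine ⟨C, ?_⟩
  intro A B hAB K H M hK hH
  have hl := ell_ge hAB
  have hl21 : 1 ≤ ell A B ^ 2 := by nlinarith
  have hCC : C₀ ≤ C := by rw [hCdef]; have := sq_nonneg G; have := sq_nonneg (2 * u + ε'); linarith
  have hKC₀ : C₀ * ell A B ^ 2 ≤ K := le_trans (mul_le_mul_of_nonneg_right hCC (by positivity)) hK
  have hKC : C ≤ K := le_trans (by nlinarith) hK
  have hK1 : (1 : ℝ) ≤ K := by linarith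
  have hHC₀ : (K : ℝ) ^ C₀ ≤ H := le_trans (Real.rpow_le_rpow_of_exponent_le hK1 hCC) hH
  obtain ⟨hK0, hH0, ⟨E, hE1, hE2, hE3⟩, hn⟩ := hC A B hAB K H M hKC₀ hHC₀
  have hK0' : (0 : ℝ) < K := by exact_mod_cast hK0
  have hH0' : (0 : ℝ) < H := by exact_mod_cast hH0
  have hsK : 0 < √(K : ℝ) := Real.sqrt_pos.2 hK0'
  have hsKK : √(K : ℝ) * √(K : ℝ) = K := Real.mul_self_sqrt hK0'.le
  have hhalf : √(1 / 2 * (K : ℝ)) ≤ √(K : ℝ) := Real.sqrt_le_sqrt (by linarith)
  -- the angles of the curve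
  set x : ℕ → ℝ := fun k => Real.arccos (((Nat.nth Nat.Prime k : ℕ) - (points (Nat.nth Nat.Prime k) A B : ℝ)) /
      (2 * √((Nat.nth Nat.Prime k : ℕ) : ℝ))) / Real.pi with hxdef
  have hx : IsAngles A B x := fun k _ => rfl
  set V : ℝ := ∑ k ∈ range K, ((sgn (x k) - sgn (1 - x k)) / 2) ^ 2 with hV
  set z : ℝ := (((range K).filter (fun k => x k = 1 / 2)).card : ℝ) with hz
  have hVz : V = K - z := by
    have e1 : ((K : ℕ) : ℝ) = ∑ k ∈ range K, (1 : ℝ) := by simp
    rw [hV, hz, e1, ← sum_boole, ← sum_sub_distrib]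
    refine sum_congr rfl fun k _ => ?_
    rw [sgn_refl]
    unfold sgn
    rcases lt_trichotomy (x k) (1 / 2) with h | h | h
    · have h2 : ¬ (x k = 1 / 2) := by intro h'; linarith
      simp only [h, h2, if_true, if_false]; norm_num
    · simp only [h]; norm_num
    · have h1 : ¬ (x k < 1 / 2) := by intro h'; linarith
      have h2 : ¬ (x k = 1 / 2) := by intro h'; linarith
      simp only [h1, h2, if_false]; norm_num
  -- the good set
  set Q := (Ico M (M + (H : ℤ))).filter (fun D => ∀ X : ℕ → ℝ, IsAngles (A * D ^ 2) (B * D ^ 3) X →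
        (∀ k, 0 ≤ X k ∧ X k < 1) → ∀ s : ℕ, 1 ≤ s → u ≤ √(K : ℝ) * starDisc X s K) with hQ
  have hPhi : Phi (-(2 * u)) ≤ 1 / 2 := by
    have h1 := Phi_neg (2 * u)
    have h2 := Phi_mono (s := -(2 * u)) (t := 2 * u) (by linarith)
    linarith
  -- how the discrepancy is used
  have huse : ∀ X : ℕ → ℝ, (∀ k, 0 ≤ X k ∧ X k < 1) → ∀ s : ℕ, 1 ≤ s →
      2 * u * √(K : ℝ) ≤ |∑ k ∈ range K, sgn (X k)| + (((range K).filter (fun k => X k = 1 / 2)).card : ℝ) →
      u ≤ √(K : ℝ) * starDisc X s K := by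
    intro X hX s hs h
    have h1 := starDisc_sgn X hX s K hs hK0
    have h2 : 2 * u * √(K : ℝ) / (2 * K) ≤ starDisc X s K :=
      (div_le_div_of_nonneg_right h (by positivity)).trans h1
    have h3 := mul_le_mul_of_nonneg_left h2 hsK.le
    refine le_trans (le_of_eq ?_) h3
    rw [show √(K : ℝ) * (2 * u * √(K : ℝ) / (2 * K)) = u * (√(K : ℝ) * √(K : ℝ)) / K by ring, hsKK]
    field_simp
  rcases le_or_gt ((2 * u + ε') * √(K : ℝ)) z with hcase | hcase
  · -- many angles 1/2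
    have h1 : Ico M (M + (H : ℤ)) \ E ⊆ Q := by
      intro D hD
      obtain ⟨hD1, hD2⟩ := mem_sdiff.1 hD
      refine mem_filter.2 ⟨hD1, ?_⟩
      intro X hX hX01 s hs
      apply huse X hX01 s hs
      have h2 := hE3 D hD1 hD2
      have h3 : z ≤ (((range K).filter (fun k => X k = 1 / 2)).card : ℝ) + ((bad A B K : ℝ) + om K D) := by
        have h4 : (range K).filter (fun k => x k = 1 / 2) ⊆ (range K).filter (fun k => X k = 1 / 2) ∪
            ((range K).filter (fun k => (pr k : ℤ) ∣ 2 * (4 * A ^ 3 + 27 * B ^ 2)) ∪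
              (range K).filter (fun k => (pr k : ℤ) ∣ D)) := by
          intro k hk
          obtain ⟨hk1, hk2⟩ := mem_filter.1 hk
          by_cases hkb : (pr k : ℤ) ∣ 2 * (4 * A ^ 3 + 27 * B ^ 2)
          · exact mem_union_right _ (mem_union_left _ (mem_filter.2 ⟨hk1, hkb⟩))
          · by_cases hkD : (pr k : ℤ) ∣ D
            · exact mem_union_right _ (mem_union_right _ (mem_filter.2 ⟨hk1, hkD⟩))
            · refine mem_union_left _ (mem_filter.2 ⟨hk1, ?_⟩)
              rcases angle_twist hx hX hkb hkD with ⟨_, h5⟩ | ⟨_, h5⟩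
              · rw [h5, hk2]
              · rw [h5, hk2]; norm_num
        have h5 := (card_le_card h4).trans ((card_union_le _ _).trans (Nat.add_le_add_left (card_union_le _ _) _))
        have h6 : (((range K).filter (fun k => x k = 1 / 2)).card : ℝ) ≤
            (((range K).filter (fun k => X k = 1 / 2)).card : ℝ) +
            ((((range K).filter (fun k => (pr k : ℤ) ∣ 2 * (4 * A ^ 3 + 27 * B ^ 2))).card : ℝ) +
              (((range K).filter (fun k => (pr k : ℤ) ∣ D)).card : ℝ)) := by exact_mod_cast h5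
        exact h6
      have h7 : 0 ≤ |∑ k ∈ range K, sgn (X k)| := abs_nonneg _
      have h8 : ε' * √(1 / 2 * (K : ℝ)) ≤ ε' * √(K : ℝ) := mul_le_mul_of_nonneg_left hhalf hε'0.le
      have h9 : (0 : ℝ) ≤ (bad A B K : ℝ) + om K D := by positivity
      linarith
    have h2 : ((Ico M (M + (H : ℤ))).card : ℝ) ≤ Q.card + E.card := by
      have h3 : Ico M (M + (H : ℤ)) ⊆ Q ∪ E := by
        intro D hD
        by_cases hDE : D ∈ E
        · exact mem_union_right _ hDE
        · exact mem_union_left _ (h1 (mem_sdiff.2 ⟨hD, hDE⟩))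
      exact_mod_cast (card_le_card h3).trans (card_union_le _ _)
    have h3 : ((Ico M (M + (H : ℤ))).card : ℝ) = H := by simp
    rw [h3] at h2
    have h4 : ε' * H ≤ ε * H := by rw [hε']; nlinarith
    have h5 : (2 * Phi (-(2 * u)) - ε) * H ≤ (1 - ε) * H := by
      apply mul_le_mul_of_nonneg_right _ hH0'.le
      linarith
    nlinarith
  · -- few angles 1/2
    have hK4 : 4 * (2 * u + ε') ^ 2 ≤ K := by
      refine le_trans ?_ hKC
      rw [hCdef]; have := sq_nonneg G; linarith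
    have hsK2 : 2 * (2 * u + ε') ≤ √(K : ℝ) := by
      apply Real.le_sqrt_of_sq_le
      linarith
    have hVlow : (K : ℝ) - (2 * u + ε') * √(K : ℝ) ≤ V := by rw [hVz]; linarith
    have hVK : 1 / 2 * (K : ℝ) ≤ V := by nlinarith
    have hV0 : 0 < V := by linarith
    have hv : 0 < √V := Real.sqrt_pos.2 hV0
    have hGK : G ≤ √(K : ℝ) := by
      apply Real.le_sqrt_of_sq_le
      refine le_trans ?_ hKC
      rw [hCdef]; have := sq_nonneg (2 * u + ε'); linarith
    have hVu : (2 * u + ε') * √(K : ℝ) ≤ (2 * u + 3 * ε') * √V := by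
      apply (pow_le_pow_iff_left₀ (by positivity) (by positivity) (by norm_num : (2 : ℕ) ≠ 0)).1
      rw [mul_pow, mul_pow, Real.sq_sqrt hK0'.le, Real.sq_sqrt hV0.le]
      have h1 : (2 * u + 3 * ε') ^ 2 * (2 * u + ε') ≤ 8 * ε' * (u + ε') * √(K : ℝ) := by
        rw [hG, div_le_iff₀ (by positivity)] at hGK
        linarith
      have h2 : (2 * u + 3 * ε') ^ 2 * ((2 * u + ε') * √(K : ℝ)) ≤ 8 * ε' * (u + ε') * K := by
        calc (2 * u + 3 * ε') ^ 2 * ((2 * u + ε') * √(K : ℝ)) = (2 * u + 3 * ε') ^ 2 * (2 * u + ε') * √(K : ℝ) := by ring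
          _ ≤ 8 * ε' * (u + ε') * √(K : ℝ) * √(K : ℝ) := mul_le_mul_of_nonneg_right h1 hsK.le
          _ = 8 * ε' * (u + ε') * K := by rw [mul_assoc, hsKK]
      have h3 : (2 * u + 3 * ε') ^ 2 * ((K : ℝ) - (2 * u + ε') * √(K : ℝ)) ≤ (2 * u + 3 * ε') ^ 2 * V :=
        mul_le_mul_of_nonneg_left hVlow (sq_nonneg _)
      nlinarith
    set S := SS (cof A B x sgn (√V)) K with hS
    set u' : ℝ := 2 * u + 3 * ε' with hu'
    have hgood : ∀ D ∈ Ico M (M + (H : ℤ)), D ∉ E → u' ≤ |S D| → D ∈ Q := by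
      intro D hD hDE hSD
      refine mem_filter.2 ⟨hD, ?_⟩
      intro X hX hX01 s hs
      apply huse X hX01 s hs
      have h1 := approx hx hX sgn sgn_abs K (√V) hv
      have h2 : ∑ k ∈ range K, (sgn (x k) + sgn (1 - x k)) / 2 = 0 := by
        apply sum_eq_zero
        intro k _
        rw [sgn_refl]; ring
      rw [h2, sub_zero] at h1
      have h3 := hE3 D hD hDE
      have h4 : √V * u' ≤ |√V * S D| := by
        rw [abs_mul, abs_of_pos hv]
        exact mul_le_mul_of_nonneg_left hSD hv.le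
      have h5 : |√V * S D| ≤ |∑ k ∈ range K, sgn (X k)| + |∑ k ∈ range K, sgn (X k) - √V * S D| := by
        have := abs_sub_abs_le_abs_sub (√V * S D) (∑ k ∈ range K, sgn (X k))
        rw [abs_sub_comm] at this
        linarith
      have h6 : ε' * √(1 / 2 * (K : ℝ)) ≤ ε' * √(K : ℝ) := mul_le_mul_of_nonneg_left hhalf hε'0.le
      have h7 : (0 : ℝ) ≤ (((range K).filter (fun k => X k = 1 / 2)).card : ℝ) := by positivity
      linarith
    have h1 := (abs_le.1 (hn x sgn sgn_abs V hV hVK u')).2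
    have h2 := (abs_le.1 (hn x sgn sgn_abs V hV hVK (-u'))).1
    have h3 : (H : ℝ) + ((Ico M (M + (H : ℤ))).filter (fun D => S D ≤ -u')).card ≤
        ((Ico M (M + (H : ℤ))).filter (fun D => S D ≤ u')).card + Q.card + E.card := by
      have h4 : (Ico M (M + (H : ℤ))).filter (fun D => S D ≤ -u') ⊆ (Q ∪ E) ∩ (Ico M (M + (H : ℤ))).filter (fun D => S D ≤ u') := by
        intro D hD
        obtain ⟨hD1, hD2⟩ := mem_filter.1 hD
        have hu'0 : 0 ≤ u' := by rw [hu']; positivity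
        refine mem_inter.2 ⟨?_, mem_filter.2 ⟨hD1, by linarith⟩⟩
        by_cases hDE : D ∈ E
        · exact mem_union_right _ hDE
        · refine mem_union_left _ (hgood D hD1 hDE ?_)
          rw [abs_of_nonpos (by linarith)]; linarith
      have h5 : Ico M (M + (H : ℤ)) ⊆ (Q ∪ E) ∪ (Ico M (M + (H : ℤ))).filter (fun D => S D ≤ u') := by
        intro D hD1
        by_cases hDu : S D ≤ u'
        · exact mem_union_right _ (mem_filter.2 ⟨hD1, hDu⟩)
        · refine mem_union_left _ ?_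
          by_cases hDE : D ∈ E
          · exact mem_union_right _ hDE
          · refine mem_union_left _ (hgood D hD1 hDE ?_)
            exact (le_of_lt (not_le.1 hDu)).trans (le_abs_self _)
      have h6 := card_le_card h4
      have h7 := card_le_card h5
      have h8 := card_union_add_card_inter (Q ∪ E) ((Ico M (M + (H : ℤ))).filter (fun D => S D ≤ u'))
      have h9 := card_union_le Q E
      have h10 : (Ico M (M + (H : ℤ))).card = H := by simp
      rw [h10] at h7
      have : H + ((Ico M (M + (H : ℤ))).filter (fun D => S D ≤ -u')).card ≤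
        ((Ico M (M + (H : ℤ))).filter (fun D => S D ≤ u')).card + Q.card + E.card := by omega
      exact_mod_cast this
    have l1 := Phi_neg u'
    have l2 := Phi_lip (s := -u') (t := -(2 * u)) (by rw [hu']; linarith)
    have e1 : -(2 * u) - -u' = 3 * ε' := by rw [hu']; ring
    rw [e1] at l2
    have m1 : (((Ico M (M + (H : ℤ))).filter (fun D => S D ≤ u')).card : ℝ) ≤ (Phi u' + ε') * H := by
      rw [← div_le_iff₀ hH0']; linarith
    have m2 : (Phi (-u') - ε') * H ≤ (((Ico M (M + (H : ℤ))).filter (fun D => S D ≤ -u')).card : ℝ) := by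
      rw [← le_div_iff₀ hH0']; linarith
    have m3 : (2 * Phi (-(2 * u)) - ε) * H ≤ H + (Phi (-u') - ε') * H - (Phi u' + ε') * H - ε' * H := by
      have : (2 * Phi (-(2 * u)) - ε) ≤ 1 + (Phi (-u') - ε') - (Phi u' + ε') - ε' := by
        have e2 : ε = 9 * ε' := by rw [hε']; ring
        linarith
      calc (2 * Phi (-(2 * u)) - ε) * H ≤ (1 + (Phi (-u') - ε') - (Phi u' + ε') - ε') * H :=
            mul_le_mul_of_nonneg_right this hH0'.le
        _ = _ := by ring
    linarith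

end

end Pool.Agent.J4.H33.GL
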